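import Pool.Agent.Helper35.KL.KFinal

/-! Load theorem of project KS: terms where `A` contains a prime of `m` and the other primes of `m` divide `l`
(candidates first). -/

set_option autoImplicit false
open scoped Classical
open Finset Filter

namespace Pool.Agent.Helper35.KL

open Pool.Agent.Helper16.KS Pool.Agent.Helper18.KL

/-- the beginning of a cell is comparable with the square of its length -/
theorem start_pow (S : Sys) (k j : ℕ) (hj : j < nc S.d k) :
    ((2 ^ k + j * 2 ^ ec S.d k : ℕ) : ℝ) ^ (1 / 2 - 3 * S.d) ≤ 3 * (2 : ℝ) ^ ec S.d k := by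
  have hd := S.d_pos
  have hd' : S.d ≤ 1/100 := by have := S.d_le'; norm_num at this ⊢; linarith
  set x := 2 ^ k + j * 2 ^ ec S.d k with hx
  have hx2 : x < 2 ^ (k + 1) := by
    have hxm : x ∈ cell S.d k j := by
      rw [Pool.Agent.Helper88.KS.cell_eq, mem_Ico]
      have : 0 < 2 ^ ec S.d k := by positivity
      omega
    exact cell_lt hd hj hxm
  have hxr : (x : ℝ) ≤ (2 : ℝ) ^ ((k : ℝ) + 1) := by
    have : (x : ℝ) ≤ ((2 ^ (k + 1) : ℕ) : ℝ) := by exact_mod_cast hx2.le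
    refine this.trans (le_of_eq ?_)
    push_cast
    rw [← Real.rpow_natCast]
    push_cast
    rfl
  calc (x : ℝ) ^ (1 / 2 - 3 * S.d) ≤ ((2 : ℝ) ^ ((k : ℝ) + 1)) ^ (1 / 2 - 3 * S.d) :=
        Real.rpow_le_rpow (Nat.cast_nonneg _) hxr (by linarith)
    _ = (2 : ℝ) ^ (((k : ℝ) + 1) * (1 / 2 - 3 * S.d)) := by rw [← Real.rpow_mul (by norm_num)]
    _ ≤ (2 : ℝ) ^ ((3 / 2 : ℝ) + ((1/2 - S.d) * (k : ℝ) - 1)) := by
        refine Real.rpow_le_rpow_of_exponent_le (by norm_num) ?_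
        have hk : (0 : ℝ) ≤ k := Nat.cast_nonneg k
        nlinarith [mul_nonneg hd.le hk]
    _ = (2 : ℝ) ^ (3 / 2 : ℝ) * (2 : ℝ) ^ ((1/2 - S.d) * (k : ℝ) - 1) := Real.rpow_add (by norm_num) _ _
    _ ≤ 3 * (2 : ℝ) ^ ec S.d k := by
        have h5 := Pool.Agent.Helper88.KS.ec_real_ge S.d k
        have h6 : (2 : ℝ) ^ (3 / 2 : ℝ) ≤ 3 := by
          have h7 : ((2 : ℝ) ^ (3 / 2 : ℝ)) ^ 2 ≤ 3 ^ 2 := by
            rw [← Real.rpow_natCast, ← Real.rpow_mul (by norm_num)]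
            norm_num
          exact le_of_sq_le_sq h7 (by norm_num)
        exact mul_le_mul h6 h5 (by positivity) (by norm_num)

/-- the sum over the numbers `n`, for a given candidate -/
theorem jf_inner (S : Sys) : ∃ C : ℝ, 0 < C ∧ ∀ k0 : ℕ, 10 ≤ k0 → S.K ≤ k0 → ∀ k, k0 ≤ k → ∀ j < nc S.d k,
    ∀ A : Finset ℕ, Aok k0 k A → ∀ k', k0 ≤ k' → ∀ j' ∈ S.badc k', ∀ x ∈ S.Cand k' j',
    ∑ n ∈ ((cell S.d k j).filter (Sys.rough k0)).filter (fun n => x.1 ∣ n ∧ QJ A (k', j') n x ∧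
      A ⊆ x.2.primeFactors ∪ (n / x.1).primeFactors), tw S A x.2 (n / x.1) ≤
      C * (2 : ℝ) ^ (45 * ((k + 1 : ℝ) / k0)) * 2 ^ ec S.d k *
        ((mA A x.2 : ℝ) / (2 : ℝ) ^ (k' : ℝ)) ^ (1 / 2 - 3 * S.d) := by
  obtain ⟨C, hC, h⟩ := powA S (3 * S.d) (by have := S.d_pos; linarith) (three_d_le S)
  refine ⟨13 * C, by positivity, ?_⟩
  intro k0 hk0 hk0K k hkk j hj A hA k' hk' j' hj' x hx
  have hd := S.d_pos
  have hd' : S.d ≤ 1/100 := by have := S.d_le'; norm_num at this ⊢; linarith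
  have hhh1 := S.hh_ge
  have hhh2 := S.hh_le
  have hdel := S.del_pos
  obtain ⟨g1, g2, g3, g4, g5, g6, g7, -, -⟩ := S.cand_facts (hk0K.trans hk') hj' hx
  set q := x.1 with hqdef
  set m := x.2 with hmdef
  set μ := mA A m with hμ
  have hμ0 : 0 < μ := mA_pos A m
  have hm0 : 0 < m := by omega
  -- the complementary part
  set g := ∏ p ∈ m.primeFactors \ (m.primeFactors ∩ A), p with hg
  have hμg : μ * g = m := sub_prod g2 Finset.inter_subset_left
  have hg0 : 0 < g := by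
    rcases Nat.eq_zero_or_pos g with h0 | h0
    · rw [h0, Nat.mul_zero] at hμg; omega
    · exact h0
  set X0 := 2 ^ k + j * 2 ^ ec S.d k with hX0
  set Y := 2 ^ ec S.d k with hY
  have hYX : Y ≤ X0 := by
    have : Y ≤ 2 ^ k := Nat.pow_le_pow_right (by norm_num) (Pool.Agent.Helper88.KS.ec_le S.d hd.le k)
    omega
  have hX01 : 1 ≤ X0 := by have := Nat.one_le_two_pow (n := k); omega
  have hcell : cell S.d k j = Ico X0 (X0 + Y) := Pool.Agent.Helper88.KS.cell_eq S.d k j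
  set N := ((cell S.d k j).filter (Sys.rough k0)).filter (fun n => q ∣ n ∧ QJ A (k', j') n x ∧
      A ⊆ m.primeFactors ∪ (n / q).primeFactors) with hN
  set θ : ℝ := 1 / 2 - 3 * S.d with hθ
  have hθ0 : 0 < θ := by rw [hθ]; linarith
  have hθ1 : θ ≤ 1 / 2 := by rw [hθ]; linarith
  set ω : ℝ := (k + 1 : ℝ) / k0 with hω
  have hω1 : 1 ≤ ω := by
    have h6 : (10 : ℝ) ≤ k0 := by exact_mod_cast hk0
    have h7 : (k0 : ℝ) ≤ k := by exact_mod_cast hkk
    rw [hω, le_div_iff₀ (by linarith)]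
    linarith
  set ρ : ℝ := (μ : ℝ) / (2 : ℝ) ^ (k' : ℝ) with hρ
  have hρ0 : 0 < ρ := by
    have : (0 : ℝ) < μ := by exact_mod_cast hμ0
    rw [hρ]; positivity
  rcases N.eq_empty_or_nonempty with hNe | ⟨n0, hn0⟩
  · rw [hNe, Finset.sum_empty]; positivity
  -- size of q
  have hq2X : q ≤ 2 * X0 := by
    rw [hN, mem_filter, mem_filter, hcell, mem_Ico] at hn0
    have hn1 : 0 < n0 := by omega
    have := Nat.le_of_dvd hn1 hn0.2.1
    omega
  obtain ⟨f1, f2, f3, f4, f5⟩ := ceil_div_facts X0 Y q g1.one_lt.le hX01 hYX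
  set x' := (X0 + q - 1) / q with hx'
  set y' := (X0 + Y + q - 1) / q - x' with hy'
  have hmemN : ∀ n ∈ N, n ≠ 0 ∧ q ∣ n ∧ n / q ∈ (Ico x' (x' + y')).filter (fun l => g ∣ l) := by
    intro n hn
    rw [hN, mem_filter, mem_filter, hcell, mem_Ico] at hn
    obtain ⟨⟨hn1, hn2⟩, hn3, hn4, hn5⟩ := hn
    have hne : n ≠ 0 := by omega
    refine ⟨hne, hn3, ?_⟩
    rw [mem_filter]
    constructor
    · refine (f5 (n / q)).mp ?_
      rw [Nat.mul_div_cancel' hn3]
      exact hn1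
    · rw [hg]
      refine Finset.prod_primes_dvd _ (fun p hp => ?_) fun p hp => ?_
      · exact (Nat.prime_of_mem_primeFactors (Finset.mem_sdiff.mp hp).1).prime
      · rw [Finset.mem_sdiff, Finset.mem_inter, not_and] at hp
        have hp1 := Nat.mem_primeFactors.mp hp.1
        exact hn4.2 p hp1.1 hp1.2.1 (hp.2 hp.1)
  set O := A ∪ m.primeFactors with hO
  have hsum : ∑ n ∈ N, tw S A m (n / q) ≤
      ∑ l ∈ (Ico x' (x' + y')).filter (fun l => g ∣ l), (sig O l : ℝ) ^ S.hh * (g : ℝ) ^ (-S.hh) := by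
    have e1 : ∀ n ∈ N, tw S A m (n / q) = (sig O (n / q) : ℝ) ^ S.hh * (g : ℝ) ^ (-S.hh) := by
      intro n hn
      unfold tw
      have hgr : (0 : ℝ) < g := by exact_mod_cast hg0
      have hμr : (0 : ℝ) < μ := by exact_mod_cast hμ0
      have e2 : (mA A m : ℝ) / m = (g : ℝ)⁻¹ := by
        have : (m : ℝ) = μ * g := by exact_mod_cast hμg.symm
        rw [← hμ, this]
        field_simp
      rw [e2, Real.mul_rpow (by positivity) (by positivity), Real.inv_rpow hgr.le, Real.rpow_neg hgr.le]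
      ring
    rw [Finset.sum_congr rfl e1]
    rw [← Finset.sum_image (f := fun l => (sig O l : ℝ) ^ S.hh * (g : ℝ) ^ (-S.hh)) (g := fun n => n / q)]
    · refine Finset.sum_le_sum_of_subset_of_nonneg ?_ fun _ _ _ => by positivity
      intro l hl
      rw [Finset.mem_image] at hl
      obtain ⟨n, hn, rfl⟩ := hl
      exact (hmemN n hn).2.2
    · intro n hn n' hn' hnn
      have h1 := hmemN n hn
      have h2 := hmemN n' hn'
      have h3 : n / q = n' / q := hnn
      rw [← Nat.mul_div_cancel' h1.2.1, ← Nat.mul_div_cancel' h2.2.1, h3]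
  -- the power lemma
  have hP0 : 2 ≤ 2 ^ (k0 / 5) := by
    calc 2 = 2 ^ 1 := by norm_num
      _ ≤ 2 ^ (k0 / 5) := Nat.pow_le_pow_right (by norm_num) (by omega)
  have hOP : ∀ p ∈ O, p.Prime ∧ 2 ^ (k0 / 5) ≤ p := by
    intro p hp
    rcases Finset.mem_union.mp hp with hp | hp
    · exact hA.1 p hp
    · have hp1 := Nat.mem_primeFactors.mp hp
      refine ⟨hp1.1, nat_pow_le ?_⟩
      refine le_trans ?_ (cand_rough S (hk0K.trans hk') hj' hx p hp1.1 (hp1.2.1.mul_left _))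
      refine Real.rpow_le_rpow_of_exponent_le (by norm_num) ?_
      have : (k0 : ℝ) ≤ k' := by exact_mod_cast hk'
      linarith
  have hgO : g.primeFactors ⊆ O := by
    intro p hp
    rw [hO, Finset.mem_union]
    right
    have hgm : g ∣ m := Dvd.intro_left _ hμg
    exact Nat.primeFactors_mono hgm hm0.ne' hp
  have hpow := h x' y' (2 ^ (k0 / 5)) O g f1 f2 hP0 hOP hg0 hgO
  have hx'X : x' ≤ X0 := by
    rw [hx']
    have hq2 := g1.two_le
    have : X0 + q - 1 ≤ X0 * q := by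
      obtain ⟨a, ha⟩ : ∃ a, X0 = a + 1 := ⟨X0 - 1, by omega⟩
      obtain ⟨b, hb⟩ : ∃ b, q = b + 1 := ⟨q - 1, by omega⟩
      rw [ha, hb]
      have : (a + 1) * (b + 1) = a * b + a + b + 1 := by ring
      rw [this]
      have : 0 ≤ a * b := Nat.zero_le _
      omega
    exact Nat.div_le_of_le_mul (by rw [Nat.mul_comm]; exact this)
  have hX0lt : X0 < 2 ^ (k + 1) := by
    have hxm : X0 ∈ cell S.d k j := by
      rw [hcell, mem_Ico]
      have : 0 < Y := by rw [hY]; positivity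
      omega
    exact cell_lt hd hj hxm
  have hfac : (2 : ℝ) ^ (O.card + Nat.log (2 ^ (k0 / 5)) (2 * x')) ≤ (2 : ℝ) ^ (45 * ω) := by
    rw [← Real.rpow_natCast]
    refine Real.rpow_le_rpow_of_exponent_le (by norm_num) ?_
    push_cast
    have h4 := hA.2
    have h5 := log_le (x := 2 * x') hk0 hkk (by rw [pow_succ]; omega)
    have h6 := omega_cand S (hk0K.trans hk') hj' hx
    have h7 : (O.card : ℝ) ≤ A.card + m.primeFactors.card := by exact_mod_cast Finset.card_union_le _ _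
    linarith
  -- real inequalities
  have hgr : (0 : ℝ) < g := by exact_mod_cast hg0
  have hgr1 : (1 : ℝ) ≤ g := by exact_mod_cast hg0
  have hμr : (0 : ℝ) < μ := by exact_mod_cast hμ0
  have hqr : (0 : ℝ) < q := by exact_mod_cast g1.pos
  have hX0r : (1 : ℝ) ≤ X0 := by exact_mod_cast hX01
  have hYr : (0 : ℝ) < Y := by rw [hY]; positivity
  have hx'r : (1 : ℝ) ≤ x' := by exact_mod_cast f1
  have hqg : 1 / ((q : ℝ) * g) ≤ ρ := by
    rw [hρ, div_le_div_iff₀ (by positivity) (by positivity), one_mul]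
    have h8 : (2 : ℝ) ^ (k' : ℝ) ≤ q * m := by
      rw [Real.rpow_natCast]
      exact_mod_cast g6
    have h9 : (m : ℝ) = μ * g := by exact_mod_cast hμg.symm
    rw [h9] at h8
    linarith
  have hρ1 : ρ ≤ 1 := by
    rw [hρ, div_le_one (by positivity), Real.rpow_natCast]
    have h8 : μ ≤ m := Nat.le_of_dvd hm0 (Dvd.intro _ hμg)
    have h9 : m ≤ 2 ^ k' := by
      have h10 : 2 * m ≤ q * m := Nat.mul_le_mul_right _ g1.two_le
      have h11 : 2 ^ (k' + 1) = 2 * 2 ^ k' := by ring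
      omega
    exact_mod_cast h8.trans h9
  have hx'g : ((x' : ℝ) / g) ^ θ ≤ 6 * Y * ρ ^ θ := by
    have h8 : (x' : ℝ) ≤ 3 * X0 / q := by
      refine f4.trans ?_
      rw [div_add_one hqr.ne', div_le_div_iff_of_pos_right hqr]
      have : (q : ℝ) ≤ 2 * X0 := by exact_mod_cast hq2X
      linarith
    have h9 : (x' : ℝ) / g ≤ 3 * X0 * ρ := by
      calc (x' : ℝ) / g ≤ (3 * X0 / q) / g := div_le_div_of_nonneg_right h8 hgr.le
        _ = 3 * X0 * (1 / (q * g)) := by field_simp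
        _ ≤ _ := mul_le_mul_of_nonneg_left hqg (by positivity)
    calc ((x' : ℝ) / g) ^ θ ≤ (3 * X0 * ρ) ^ θ := Real.rpow_le_rpow (by positivity) h9 hθ0.le
      _ = (3 : ℝ) ^ θ * (X0 : ℝ) ^ θ * ρ ^ θ := by
          rw [Real.mul_rpow (by positivity) hρ0.le, Real.mul_rpow (by norm_num) (by positivity)]
      _ ≤ 2 * (3 * Y) * ρ ^ θ := by
          refine mul_le_mul_of_nonneg_right ?_ (by positivity)
          refine mul_le_mul ?_ ?_ (by positivity) (by norm_num)
          · calc (3 : ℝ) ^ θ ≤ (3 : ℝ) ^ (1 / 2 : ℝ) := Real.rpow_le_rpow_of_exponent_le (by norm_num) hθ1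
              _ ≤ 2 := by
                have h7 : ((3 : ℝ) ^ (1 / 2 : ℝ)) ^ 2 ≤ 2 ^ 2 := by
                  rw [← Real.rpow_natCast, ← Real.rpow_mul (by norm_num)]
                  norm_num
                exact le_of_sq_le_sq h7 (by norm_num)
          · have := start_pow S k j hj
            rw [← hX0, ← hθ] at this
            rw [hY]
            push_cast
            exact this
      _ = _ := by ring
  have hg1 : (1 : ℝ) / g ≤ ((x' : ℝ) / g) ^ θ := by
    calc (1 : ℝ) / g = ((1 : ℝ) / g) ^ (1 : ℝ) := (Real.rpow_one _).symm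
      _ ≤ ((1 : ℝ) / g) ^ θ := by
          refine Real.rpow_le_rpow_of_exponent_ge (by positivity) ?_ (by linarith)
          rw [div_le_one hgr]; exact hgr1
      _ ≤ ((x' : ℝ) / g) ^ θ := by
          refine Real.rpow_le_rpow (by positivity) ?_ hθ0.le
          exact div_le_div_of_nonneg_right hx'r hgr.le
  have hyg : (y' : ℝ) / g ≤ 7 * Y * ρ ^ θ := by
    have h8 : (y' : ℝ) / g ≤ (Y / q + 1) / g := div_le_div_of_nonneg_right f3 hgr.le
    have h9 : ((Y : ℝ) / q + 1) / g = Y * (1 / (q * g)) + 1 / g := by field_simp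
    have h10 : (Y : ℝ) * (1 / (q * g)) ≤ Y * ρ ^ θ := by
      refine mul_le_mul_of_nonneg_left (hqg.trans ?_) hYr.le
      calc ρ = ρ ^ (1 : ℝ) := (Real.rpow_one _).symm
        _ ≤ ρ ^ θ := Real.rpow_le_rpow_of_exponent_ge hρ0 hρ1 (by linarith)
    linarith
  have htot : (y' * (g : ℝ) ^ (S.hh - 1) + (x' : ℝ) ^ (1 / 2 - 3 * S.d) * (g : ℝ) ^ (S.hh - 1 / 2 + 3 * S.d)) *
      (g : ℝ) ^ (-S.hh) ≤ 13 * (Y : ℝ) * ρ ^ θ := by
    have e1 : (y' * (g : ℝ) ^ (S.hh - 1) + (x' : ℝ) ^ (1 / 2 - 3 * S.d) * (g : ℝ) ^ (S.hh - 1 / 2 + 3 * S.d)) *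
      (g : ℝ) ^ (-S.hh) = y' / g + ((x' : ℝ) / g) ^ θ := by
      rw [add_mul, mul_assoc, mul_assoc, ← Real.rpow_add hgr, ← Real.rpow_add hgr,
        Real.div_rpow (by positivity) hgr.le, ← hθ]
      have e2 : S.hh - 1 + -S.hh = -1 := by ring
      have e3 : S.hh - 1 / 2 + 3 * S.d + -S.hh = -θ := by rw [hθ]; ring
      rw [e2, e3, Real.rpow_neg hgr.le, Real.rpow_neg hgr.le, Real.rpow_one]
      ring
    rw [e1]
    linarith
  calc ∑ n ∈ N, tw S A m (n / q) ≤ ∑ l ∈ (Ico x' (x' + y')).filter (fun l => g ∣ l),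
        (sig O l : ℝ) ^ S.hh * (g : ℝ) ^ (-S.hh) := hsum
    _ = (∑ l ∈ (Ico x' (x' + y')).filter (fun l => g ∣ l), (sig O l : ℝ) ^ S.hh) * (g : ℝ) ^ (-S.hh) := by
        rw [Finset.sum_mul]
    _ ≤ (C * 2 ^ (O.card + Nat.log (2 ^ (k0 / 5)) (2 * x')) *
        (y' * (g : ℝ) ^ (S.hh - 1) + (x' : ℝ) ^ (1 / 2 - 3 * S.d) * (g : ℝ) ^ (S.hh - 1 / 2 + 3 * S.d))) *
        (g : ℝ) ^ (-S.hh) := mul_le_mul_of_nonneg_right hpow (by positivity)
    _ = C * 2 ^ (O.card + Nat.log (2 ^ (k0 / 5)) (2 * x')) *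
        ((y' * (g : ℝ) ^ (S.hh - 1) + (x' : ℝ) ^ (1 / 2 - 3 * S.d) * (g : ℝ) ^ (S.hh - 1 / 2 + 3 * S.d)) *
        (g : ℝ) ^ (-S.hh)) := by ring
    _ ≤ C * (2 : ℝ) ^ (45 * ω) * (13 * (Y : ℝ) * ρ ^ θ) :=
        mul_le_mul (mul_le_mul_of_nonneg_left hfac hC.le) htot (by positivity) (by positivity)
    _ = _ := by rw [hY]; push_cast; ring

/-- the sum over the candidates of a cell -/
theorem jf_cand (S : Sys) {k' j' : ℕ} (hk : S.K ≤ k') (hj : j' ∈ S.badc k') (A : Finset ℕ) :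
    ∑ x ∈ (S.Cand k' j').filter (fun x => ∃ p : ℕ, p.Prime ∧ p ∣ x.2 ∧ p ∈ A),
      ((mA A x.2 : ℝ) / (2 : ℝ) ^ (k' : ℝ)) ^ (1 / 2 - 3 * S.d) ≤
      2 * 2 ^ A.card * (2 : ℝ) ^ (-(S.u (S.cls k' j') + (S.c - 3 * S.d)) * k') := by
  have hd := S.d_pos
  have hd' : S.d ≤ 1/100 := by have := S.d_le'; norm_num at this ⊢; linarith
  have hdel := S.del_pos
  have hj1 := S.mem_badc.mp hj
  set u := S.u (S.cls k' j') with hu
  set θ : ℝ := 1 / 2 - 3 * S.d with hθ
  have hθ0 : 0 < θ := by rw [hθ]; linarith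
  set Xr : ℝ := (2 : ℝ) ^ (k' : ℝ) with hXr
  have hXr0 : 0 < Xr := by positivity
  set H : ℝ := (2 : ℝ) ^ ec S.d k' with hH
  have hH0 : 0 < H := by positivity
  have hk'0 : (0 : ℝ) ≤ k' := Nat.cast_nonneg _
  set E : ℝ := (2 : ℝ) ^ (-(u + (S.c - 3 * S.d)) * k') with hE
  set T := (S.Cand k' j').filter (fun x => ∃ p : ℕ, p.Prime ∧ p ∣ x.2 ∧ p ∈ A) with hT
  have hb := sum_fib T (PA A) (fun x => mA A x.2) (fun x _ => mA_mem A x.2)
    (fun x => ((mA A x.2 : ℝ) / Xr) ^ θ)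
    (fun a => if 0 < a ∧ (a : ℝ) ^ (-(1 / 2) : ℝ) ≤ (2 : ℝ) ^ (-(u + S.c) * k') ∧
      (a : ℝ) ^ (1 / 2 + S.del) ≤ (2 : ℝ) ^ ((1 / 2 - u - S.c) * k') then H / a + 1 else 0)
    (fun a => ((a : ℝ) / Xr) ^ θ) (fun _ _ => by positivity) (fun _ _ => le_rfl)
    (by
      intro a ha
      split_ifs with hc
      · have h12 : (T.filter (fun x => mA A x.2 = a)).card ≤
            ((Ico (2 ^ k' + j' * 2 ^ ec S.d k') (2 ^ k' + j' * 2 ^ ec S.d k' + 2 ^ ec S.d k')).filter
              (fun t => a ∣ t)).card := by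
          refine card_le_card_of_injOn (fun x => x.1 * x.2) ?_ ?_
          · intro x hx
            rw [mem_coe, mem_filter, hT, mem_filter] at hx
            obtain ⟨⟨hx, -⟩, e1⟩ := hx
            obtain ⟨h1, h2, h3, h4, h5, -⟩ := S.cand_facts hk hj hx
            rw [mem_coe, mem_filter, ← Pool.Agent.Helper88.KS.cell_eq]
            dsimp only
            refine ⟨h5, ?_⟩
            rw [← e1]
            refine Dvd.dvd.mul_left ?_ _
            exact Dvd.intro _ (sub_prod h2 Finset.inter_subset_left)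
          · intro x hx y hy hxy
            rw [mem_coe, mem_filter, hT, mem_filter] at hx hy
            exact S.inj k' hk j' hj1.1 hj1.2 x hx.1.1 y hy.1.1 hxy
        refine le_trans (by exact_mod_cast h12) ((card_mult _ _ _ hc.1).trans ?_)
        rw [hH]
        push_cast
        exact le_rfl
      · rw [show (T.filter (fun x => mA A x.2 = a)) = ∅ by
          rw [filter_eq_empty_iff]
          intro x hx e
          rw [hT, mem_filter] at hx
          obtain ⟨hx, p, hp, hpm, hpA⟩ := hx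
          obtain ⟨h1, h2, h3, h4, h5, h6, h7, -, -⟩ := S.cand_facts hk hj hx
          obtain ⟨-, -, -, -, -, hpr, hmb⟩ := S.cand k' hk j' hj1.1 hj1.2 x hx
          rw [← hu] at hpr hmb
          have hm0 : 0 < x.2 := by omega
          have ha0 : 0 < a := by rw [← e]; exact mA_pos _ _
          have har : (0 : ℝ) < a := by exact_mod_cast ha0
          have har1 : (1 : ℝ) ≤ a := by exact_mod_cast ha0
          have hpa : p ∣ a := by
            rw [← e]
            refine Finset.dvd_prod_of_mem _ ?_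
            rw [Finset.mem_inter]
            exact ⟨Nat.mem_primeFactors.mpr ⟨hp, hpm, hm0.ne'⟩, hpA⟩
          have ham : a ≤ x.2 := by
            rw [← e]
            exact Nat.le_of_dvd hm0 (Dvd.intro _ (sub_prod h2 Finset.inter_subset_left))
          have hpr' := hpr p hp (hpm.mul_left _)
          have hp1 : (1 : ℝ) ≤ p := by exact_mod_cast hp.pos
          have hple : (p : ℝ) ≤ a := by exact_mod_cast Nat.le_of_dvd ha0 hpa
          refine hc ⟨ha0, ?_, ?_⟩
          · rw [Real.rpow_neg har.le]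
            have h8 : (2 : ℝ) ^ ((u + S.c) * k') ≤ (a : ℝ) ^ (1 / 2 : ℝ) := by
              calc (2 : ℝ) ^ ((u + S.c) * k') ≤ (p : ℝ) ^ (1 / 2 - S.del) := hpr'
                _ ≤ (p : ℝ) ^ (1 / 2 : ℝ) := Real.rpow_le_rpow_of_exponent_le hp1 (by linarith)
                _ ≤ (a : ℝ) ^ (1 / 2 : ℝ) := Real.rpow_le_rpow (by linarith) hple (by norm_num)
            calc ((a : ℝ) ^ (1 / 2 : ℝ))⁻¹ ≤ ((2 : ℝ) ^ ((u + S.c) * k'))⁻¹ := inv_anti₀ (by positivity) h8
              _ = _ := by rw [← Real.rpow_neg (by norm_num)]; congr 1; ring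
          · refine le_trans (Real.rpow_le_rpow har.le ?_ (by linarith)) hmb
            exact_mod_cast ham]
        simp)
  have hterm : ∀ a ∈ PA A, (if 0 < a ∧ (a : ℝ) ^ (-(1 / 2) : ℝ) ≤ (2 : ℝ) ^ (-(u + S.c) * k') ∧
      (a : ℝ) ^ (1 / 2 + S.del) ≤ (2 : ℝ) ^ ((1 / 2 - u - S.c) * k') then H / a + 1 else 0) *
      ((a : ℝ) / Xr) ^ θ ≤ 2 * E := by
    intro a ha
    split_ifs with hc
    · obtain ⟨hc1, hc2, hc3⟩ := hc
      have har : (0 : ℝ) < a := by exact_mod_cast hc1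
      have har1 : (1 : ℝ) ≤ a := by exact_mod_cast hc1
      have h6 : H / a * ((a : ℝ) / Xr) ^ θ ≤ E := by
        have h7 : H / a * ((a : ℝ) / Xr) ^ θ = H * Xr ^ (-θ) * (a : ℝ) ^ (θ - 1) := by
          rw [Real.div_rpow har.le hXr0.le, Real.rpow_sub har θ 1, Real.rpow_one, Real.rpow_neg hXr0.le]
          field_simp
        rw [h7]
        have h8 : (a : ℝ) ^ (θ - 1) ≤ (2 : ℝ) ^ (-(u + S.c) * k') := by
          refine le_trans ?_ hc2
          refine Real.rpow_le_rpow_of_exponent_le har1 ?_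
          rw [hθ]; linarith
        have h9 : H ≤ (2 : ℝ) ^ ((1/2 - S.d) * (k' : ℝ)) :=
          Pool.Agent.Helper88.KS.ec_real_le S.d (by linarith) k'
        calc H * Xr ^ (-θ) * (a : ℝ) ^ (θ - 1) ≤
              (2 : ℝ) ^ ((1/2 - S.d) * (k' : ℝ)) * Xr ^ (-θ) * (2 : ℝ) ^ (-(u + S.c) * k') :=
              mul_le_mul (mul_le_mul_of_nonneg_right h9 (by positivity)) h8 (by positivity) (by positivity)
          _ = (2 : ℝ) ^ ((1/2 - S.d) * (k' : ℝ) + (k' : ℝ) * (-θ) + -(u + S.c) * k') := by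
              rw [hXr, ← Real.rpow_mul (by norm_num), ← Real.rpow_add (by norm_num),
                ← Real.rpow_add (by norm_num)]
          _ ≤ E := by
              rw [hE]
              refine Real.rpow_le_rpow_of_exponent_le (by norm_num) ?_
              have : (1/2 - S.d) * (k' : ℝ) + (k' : ℝ) * (-θ) + -(u + S.c) * k' =
                  -(u + (S.c - 3 * S.d)) * k' - S.d * k' := by rw [hθ]; ring
              rw [this]
              have : 0 ≤ S.d * (k' : ℝ) := by positivity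
              linarith
      have h10 : ((a : ℝ) / Xr) ^ θ ≤ E := by
        rw [Real.div_rpow har.le hXr0.le]
        calc (a : ℝ) ^ θ / Xr ^ θ ≤ (2 : ℝ) ^ ((1 / 2 - u - S.c) * k') / Xr ^ θ := by
              refine div_le_div_of_nonneg_right ?_ (by positivity)
              refine le_trans ?_ hc3
              refine Real.rpow_le_rpow_of_exponent_le har1 ?_
              rw [hθ]; linarith
          _ = E := by
              rw [hXr, hE, ← Real.rpow_mul (by norm_num), ← Real.rpow_sub (by norm_num)]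
              congr 1
              rw [hθ]; ring
      rw [add_mul, one_mul]
      linarith
    · rw [zero_mul]; positivity
  calc _ ≤ ∑ _a ∈ PA A, 2 * E := hb.trans (Finset.sum_le_sum hterm)
    _ = ((PA A).card : ℝ) * (2 * E) := by rw [Finset.sum_const, nsmul_eq_mul]
    _ ≤ (2 ^ A.card) * (2 * E) := by
        refine mul_le_mul_of_nonneg_right ?_ (by positivity)
        exact_mod_cast card_PA A
    _ = _ := by ring

theorem jF : JF := by
  intro S
  obtain ⟨C, hC, hin⟩ := jf_inner S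
  obtain ⟨K1, hK1, hclose⟩ := closing S (18 * C) 60 (by norm_num)
  refine ⟨max (max S.K 10) K1, ?_⟩
  intro k0 hk0 k hkk j hj A
  have hk0K : S.K ≤ k0 := ((le_max_left S.K 10).trans (le_max_left _ _)).trans hk0
  have hk010 : 10 ≤ k0 := ((le_max_right S.K 10).trans (le_max_left _ _)).trans hk0
  have hk0K1 : K1 ≤ k0 := (le_max_right _ _).trans hk0
  by_cases hA : Aok k0 k A
  swap
  · rw [LS_eq_zero S hk0K hkk hj _ hA]; positivity
  have hc := S.c_pos
  have hd := S.d_pos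
  have hcd : 3 * S.d ≤ S.c / 2 := by
    have h1 := S.d_le
    have : S.c / 10 ^ 5 = S.c / 10 ^ 5 := rfl
    rw [le_div_iff₀ (by positivity)] at h1
    linarith
  set ω : ℝ := (k + 1 : ℝ) / k0 with hω
  set Y : ℝ := (2 : ℝ) ^ ec S.d k with hY
  have hAc : (2 : ℝ) ^ A.card ≤ (2 : ℝ) ^ (15 * ω) := by
    rw [← Real.rpow_natCast]
    exact Real.rpow_le_rpow_of_exponent_le (by norm_num) hA.2
  -- exchange of the sums
  have hex : LS S k0 k j (QJ A) A = ∑ k' ∈ S.hvy k0 k, ∑ j' ∈ S.badc k', ∑ x ∈ S.Cand k' j',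
      ∑ n ∈ ((cell S.d k j).filter (Sys.rough k0)).filter (fun n => x.1 ∣ n ∧ QJ A (k', j') n x ∧
      A ⊆ x.2.primeFactors ∪ (n / x.1).primeFactors), tw S A x.2 (n / x.1) := by
    unfold LS
    rw [Finset.sum_comm]
    refine Finset.sum_congr rfl fun k' _ => ?_
    rw [Finset.sum_comm]
    refine Finset.sum_congr rfl fun j' _ => ?_
    refine Finset.sum_comm' fun n x => ?_
    rw [Finset.mem_filter (s := S.Cand k' j'), Finset.mem_filter (s := (cell S.d k j).filter (Sys.rough k0))]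
    tauto
  rw [hex]
  have hblock : ∀ k' ∈ S.hvy k0 k, ∑ j' ∈ S.badc k', ∑ x ∈ S.Cand k' j',
      ∑ n ∈ ((cell S.d k j).filter (Sys.rough k0)).filter (fun n => x.1 ∣ n ∧ QJ A (k', j') n x ∧
      A ⊆ x.2.primeFactors ∪ (n / x.1).primeFactors), tw S A x.2 (n / x.1) ≤
      6 * C * (2 : ℝ) ^ (60 * ω) * (2 : ℝ) ^ (-(S.c * S.d / 20) * k) * Y := by
    intro k' hk'
    have hf := hvy_facts S hk'
    have hKk' : S.K ≤ k' := hk0K.trans hf.1
    have hcellb : ∀ j' ∈ S.badc k', ∑ x ∈ S.Cand k' j',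
      ∑ n ∈ ((cell S.d k j).filter (Sys.rough k0)).filter (fun n => x.1 ∣ n ∧ QJ A (k', j') n x ∧
      A ⊆ x.2.primeFactors ∪ (n / x.1).primeFactors), tw S A x.2 (n / x.1) ≤
        (C * (2 : ℝ) ^ (45 * ω) * Y * (2 * 2 ^ A.card)) *
          (2 : ℝ) ^ (-(S.u (S.cls k' j') + (S.c - 3 * S.d)) * k') := by
      intro j' hj'
      calc ∑ x ∈ S.Cand k' j',
          ∑ n ∈ ((cell S.d k j).filter (Sys.rough k0)).filter (fun n => x.1 ∣ n ∧ QJ A (k', j') n x ∧
          A ⊆ x.2.primeFactors ∪ (n / x.1).primeFactors), tw S A x.2 (n / x.1)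
          = ∑ x ∈ (S.Cand k' j').filter (fun x => ∃ p : ℕ, p.Prime ∧ p ∣ x.2 ∧ p ∈ A),
            ∑ n ∈ ((cell S.d k j).filter (Sys.rough k0)).filter (fun n => x.1 ∣ n ∧ QJ A (k', j') n x ∧
            A ⊆ x.2.primeFactors ∪ (n / x.1).primeFactors), tw S A x.2 (n / x.1) := by
            rw [Finset.sum_filter]
            refine Finset.sum_congr rfl fun x _ => ?_
            split_ifs with hex
            · rfl
            · rw [show (((cell S.d k j).filter (Sys.rough k0)).filter (fun n => x.1 ∣ n ∧ QJ A (k', j') n x ∧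
                A ⊆ x.2.primeFactors ∪ (n / x.1).primeFactors)) = ∅ by
                rw [filter_eq_empty_iff]
                rintro n - ⟨-, h2, -⟩
                exact hex h2.1]
              exact Finset.sum_empty
        _ ≤ ∑ x ∈ (S.Cand k' j').filter (fun x => ∃ p : ℕ, p.Prime ∧ p ∣ x.2 ∧ p ∈ A),
            C * (2 : ℝ) ^ (45 * ω) * Y * ((mA A x.2 : ℝ) / (2 : ℝ) ^ (k' : ℝ)) ^ (1 / 2 - 3 * S.d) := by
            refine Finset.sum_le_sum fun x hx => ?_
            exact hin k0 hk010 hk0K k hkk j hj A hA k' hf.1 j' hj' x (mem_filter.mp hx).1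
        _ = C * (2 : ℝ) ^ (45 * ω) * Y * ∑ x ∈ (S.Cand k' j').filter (fun x => ∃ p : ℕ, p.Prime ∧ p ∣ x.2 ∧ p ∈ A),
            ((mA A x.2 : ℝ) / (2 : ℝ) ^ (k' : ℝ)) ^ (1 / 2 - 3 * S.d) := by rw [Finset.mul_sum]
        _ ≤ C * (2 : ℝ) ^ (45 * ω) * Y *
            (2 * 2 ^ A.card * (2 : ℝ) ^ (-(S.u (S.cls k' j') + (S.c - 3 * S.d)) * k')) :=
            mul_le_mul_of_nonneg_left (jf_cand S hKk' hj' A) (by positivity)
        _ = _ := by ring
    calc _ ≤ ∑ j' ∈ S.badc k', (C * (2 : ℝ) ^ (45 * ω) * Y * (2 * 2 ^ A.card)) *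
          (2 : ℝ) ^ (-(S.u (S.cls k' j') + (S.c - 3 * S.d)) * k') := Finset.sum_le_sum hcellb
      _ = (C * (2 : ℝ) ^ (45 * ω) * Y * (2 * 2 ^ A.card)) *
          ∑ j' ∈ S.badc k', (2 : ℝ) ^ (-(S.u (S.cls k' j') + (S.c - 3 * S.d)) * k') := by rw [Finset.mul_sum]
      _ ≤ (C * (2 : ℝ) ^ (45 * ω) * Y * (2 * 2 ^ A.card)) * (3 * (2 : ℝ) ^ (-(S.c - 3 * S.d) * (k' : ℝ))) := by
          refine mul_le_mul_of_nonneg_left ?_ (by positivity)
          exact Pool.Agent.Helper88.KS.sum_badc_le S hKk' _ (S.c - 3 * S.d) fun j' _ => le_rfl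
      _ ≤ (C * (2 : ℝ) ^ (45 * ω) * Y * (2 * (2 : ℝ) ^ (15 * ω))) * (3 * (2 : ℝ) ^ (-(S.c * S.d / 20) * k)) := by
          refine mul_le_mul ?_ ?_ (by positivity) (by positivity)
          · exact mul_le_mul_of_nonneg_left (by linarith) (by positivity)
          · refine mul_le_mul_of_nonneg_left ?_ (by norm_num)
            refine le_trans ?_ (hvy_decay S hk')
            refine Real.rpow_le_rpow_of_exponent_le (by norm_num) ?_
            have hk'0 : (0 : ℝ) ≤ k' := Nat.cast_nonneg _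
            nlinarith
      _ = _ := by
          have e1 : (2 : ℝ) ^ (60 * ω) = (2 : ℝ) ^ (45 * ω) * (2 : ℝ) ^ (15 * ω) := by
            rw [← Real.rpow_add (by norm_num)]
            congr 1
            ring
          rw [e1]
          ring
  calc _ ≤ ∑ _k' ∈ S.hvy k0 k, 6 * C * (2 : ℝ) ^ (60 * ω) * (2 : ℝ) ^ (-(S.c * S.d / 20) * k) * Y :=
        Finset.sum_le_sum hblock
    _ = (S.hvy k0 k).card * (6 * C * (2 : ℝ) ^ (60 * ω) * (2 : ℝ) ^ (-(S.c * S.d / 20) * k) * Y) := by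
        rw [Finset.sum_const, nsmul_eq_mul]
    _ ≤ (3 * ((k : ℝ) + 1)) * (6 * C * (2 : ℝ) ^ (60 * ω) * (2 : ℝ) ^ (-(S.c * S.d / 20) * k) * Y) :=
        mul_le_mul_of_nonneg_right (card_hvy S k0 k) (by positivity)
    _ = (18 * C * ((k : ℝ) + 1) * (2 : ℝ) ^ (60 * ω) * (2 : ℝ) ^ (-(S.c * S.d / 20) * k)) * Y := by ring
    _ ≤ (2 : ℝ) ^ (-(S.ep / 40) * k) * Y :=
        mul_le_mul_of_nonneg_right (hclose k0 hk0K1 k hkk) (by positivity)

end Pool.Agent.Helper35.KL
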