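import Pool.Agent.Helper35.KL.KF

/-! Load theorem of project KS: the bound `KF`. -/

set_option autoImplicit false
open scoped Classical
open Finset Filter

namespace Pool.Agent.Helper35.KL

open Pool.Agent.Helper16.KS Pool.Agent.Helper18.KL

theorem three_d_le (S : Sys) : 3 * S.d ≤ S.eta := by
  have h1 := S.d_le
  have h2 := S.c_le
  have h3 := S.eta_pos
  have h4 : S.c / 10 ^ 5 ≤ S.eta / 10 ^ 6 := by
    rw [div_le_div_iff₀ (by positivity) (by positivity)]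
    nlinarith
  have h5 : 3 * (S.eta / 10 ^ 6) ≤ S.eta := by
    rw [mul_div_assoc', div_le_iff₀ (by positivity)]
    nlinarith
  linarith

/-- weighted size of a cell -/
theorem mass_cell (S : Sys) : ∃ C : ℝ, 0 < C ∧ ∀ k0 : ℕ, 10 ≤ k0 → ∀ k, k0 ≤ k → ∀ j < nc S.d k, ∀ A : Finset ℕ,
    Aok k0 k A → ∑ n ∈ (cell S.d k j).filter (Sys.rough k0), (sig A n : ℝ) ^ S.hh ≤
      C * (2 : ℝ) ^ (35 * ((k + 1 : ℝ) / k0)) * 2 ^ ec S.d k := by
  obtain ⟨C, hC, h⟩ := powA S (3 * S.d) (by have := S.d_pos; linarith) (three_d_le S)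
  refine ⟨4 * C, by positivity, ?_⟩
  intro k0 hk0 k hkk j hj A hA
  have hd := S.d_pos
  have hd' : S.d ≤ 1/100 := by have := S.d_le'; norm_num at this ⊢; linarith
  have hec := Pool.Agent.Helper88.KS.ec_le S.d hd.le k
  set x := 2 ^ k + j * 2 ^ ec S.d k with hx
  set y := 2 ^ ec S.d k with hy
  have hcell : cell S.d k j = Ico x (x + y) := Pool.Agent.Helper88.KS.cell_eq S.d k j
  have hx1 : 1 ≤ x := by have := Nat.one_le_two_pow (n := k); omega
  have hyx : y ≤ x := by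
    have : y ≤ 2 ^ k := Nat.pow_le_pow_right (by norm_num) hec
    omega
  have hx2 : x < 2 ^ (k + 1) := by
    have hxm : x ∈ cell S.d k j := by
      rw [hcell, mem_Ico]
      have : 0 < y := by positivity
      omega
    exact cell_lt hd hj hxm
  have hP0 : 2 ≤ 2 ^ (k0 / 5) := by
    calc 2 = 2 ^ 1 := by norm_num
      _ ≤ 2 ^ (k0 / 5) := Nat.pow_le_pow_right (by norm_num) (by omega)
  have h1 := h x y (2 ^ (k0 / 5)) A 1 hx1 hyx hP0 hA.1 le_rfl (by simp)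
  have h2 : ∑ n ∈ (cell S.d k j).filter (Sys.rough k0), (sig A n : ℝ) ^ S.hh ≤
      ∑ n ∈ (Ico x (x + y)).filter (fun n => 1 ∣ n), (sig A n : ℝ) ^ S.hh := by
    refine Finset.sum_le_sum_of_subset_of_nonneg ?_ fun _ _ _ => by positivity
    intro n hn
    rw [mem_filter, hcell] at hn
    exact mem_filter.mpr ⟨hn.1, one_dvd _⟩
  refine h2.trans (h1.trans ?_)
  rw [Nat.cast_one, Real.one_rpow, Real.one_rpow, mul_one, mul_one]
  have h3 : (2 : ℝ) ^ (A.card + Nat.log (2 ^ (k0 / 5)) (2 * x)) ≤ (2 : ℝ) ^ (35 * ((k + 1 : ℝ) / k0)) := by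
    rw [← Real.rpow_natCast]
    refine Real.rpow_le_rpow_of_exponent_le (by norm_num) ?_
    push_cast
    have h4 := hA.2
    have h5 := log_le (x := 2 * x) hk0 hkk (by rw [pow_succ]; omega)
    linarith
  have h4 : (x : ℝ) ^ (1 / 2 - 3 * S.d) ≤ 3 * (y : ℝ) := by
    have hxr : (x : ℝ) ≤ (2 : ℝ) ^ ((k : ℝ) + 1) := by
      have : (x : ℝ) ≤ ((2 ^ (k + 1) : ℕ) : ℝ) := by exact_mod_cast hx2.le
      refine this.trans (le_of_eq ?_)
      push_cast
      rw [← Real.rpow_natCast]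
      push_cast
      rfl
    calc (x : ℝ) ^ (1 / 2 - 3 * S.d) ≤ ((2 : ℝ) ^ ((k : ℝ) + 1)) ^ (1 / 2 - 3 * S.d) :=
          Real.rpow_le_rpow (Nat.cast_nonneg _) hxr (by linarith)
      _ = (2 : ℝ) ^ (((k : ℝ) + 1) * (1 / 2 - 3 * S.d)) := by rw [← Real.rpow_mul (by norm_num)]
      _ ≤ (2 : ℝ) ^ ((3 / 2 : ℝ) + ((1/2 - S.d) * (k : ℝ) - 1)) := by
          refine Real.rpow_le_rpow_of_exponent_le (by norm_num) ?_
          have hk : (0 : ℝ) ≤ k := Nat.cast_nonneg k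
          nlinarith [mul_nonneg hd.le hk]
      _ = (2 : ℝ) ^ (3 / 2 : ℝ) * (2 : ℝ) ^ ((1/2 - S.d) * (k : ℝ) - 1) := Real.rpow_add (by norm_num) _ _
      _ ≤ 3 * (y : ℝ) := by
          have h5 := Pool.Agent.Helper88.KS.ec_real_ge S.d k
          have h6 : (2 : ℝ) ^ (3 / 2 : ℝ) ≤ 3 := by
            have h7 : ((2 : ℝ) ^ (3 / 2 : ℝ)) ^ 2 ≤ 3 ^ 2 := by
              rw [← Real.rpow_natCast, ← Real.rpow_mul (by norm_num)]
              norm_num
            exact le_of_sq_le_sq h7 (by norm_num)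
          rw [hy]
          push_cast
          exact mul_le_mul h6 h5 (by positivity) (by norm_num)
  have hy0 : (0 : ℝ) ≤ y := Nat.cast_nonneg _
  calc C * 2 ^ (A.card + Nat.log (2 ^ (k0 / 5)) (2 * x)) * ((y : ℝ) + (x : ℝ) ^ (1 / 2 - 3 * S.d))
      ≤ C * (2 : ℝ) ^ (35 * ((k + 1 : ℝ) / k0)) * (4 * (y : ℝ)) :=
        mul_le_mul (mul_le_mul_of_nonneg_left h3 hC.le) (by linarith) (by positivity) (by positivity)
    _ = _ := by rw [hy]; push_cast; ring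

/-- final estimate -/
theorem closing (S : Sys) (C a : ℝ) (ha : 0 ≤ a) : ∃ K0 : ℕ, 1 ≤ K0 ∧ ∀ k0 : ℕ, K0 ≤ k0 → ∀ k : ℕ, k0 ≤ k →
    C * ((k : ℝ) + 1) * (2 : ℝ) ^ (a * ((k + 1 : ℝ) / k0)) * (2 : ℝ) ^ (-(S.c * S.d / 20) * k) ≤
      (2 : ℝ) ^ (-(S.ep / 40) * k) := by
  have hc := S.c_pos
  have hd := S.d_pos
  have hcd : 0 < S.c * S.d := mul_pos hc hd
  obtain ⟨K1, hK1⟩ := eventually_atTop.mp (poly_exp C (S.c * S.d / 100) (by positivity) 1)
  refine ⟨max (max 1 K1) ⌈200 * a / (S.c * S.d)⌉₊, (le_max_left 1 K1).trans (le_max_left _ _), ?_⟩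
  intro k0 hk0 k hkk
  have hk1 : 1 ≤ k0 := ((le_max_left 1 K1).trans (le_max_left _ _)).trans hk0
  have hkK : K1 ≤ k := (((le_max_right 1 K1).trans (le_max_left _ _)).trans hk0).trans hkk
  have hk0r : (1 : ℝ) ≤ k0 := by exact_mod_cast hk1
  have hkr : (k0 : ℝ) ≤ k := by exact_mod_cast hkk
  have h1 := hK1 k hkK
  rw [pow_one] at h1
  have h2 : 200 * a ≤ S.c * S.d * k0 := by
    have h3 : (⌈200 * a / (S.c * S.d)⌉₊ : ℝ) ≤ k0 := by exact_mod_cast (le_max_right _ _).trans hk0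
    have h4 := (Nat.le_ceil _).trans h3
    rw [div_le_iff₀ hcd] at h4
    linarith
  have h3 : a * ((k + 1 : ℝ) / k0) ≤ S.c * S.d / 100 * k := by
    rw [mul_div_assoc', div_le_iff₀ (by linarith)]
    have h4 : a * ((k : ℝ) + 1) ≤ a * (2 * k) := mul_le_mul_of_nonneg_left (by linarith) ha
    have h5 : 200 * a * k ≤ S.c * S.d * k0 * k := mul_le_mul_of_nonneg_right h2 (by linarith)
    linarith
  have hep : S.ep / 40 ≤ S.c * S.d * 0.0015 := by
    have h4 := S.eta_le'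
    rw [S.ep_eq]
    have h5 : S.c * S.eta * S.d = S.c * S.d * S.eta := by ring
    rw [h5]
    have h6 : S.c * S.d * S.eta ≤ S.c * S.d * (3/50) := mul_le_mul_of_nonneg_left h4 hcd.le
    linarith
  have hk0' : (0 : ℝ) ≤ k := Nat.cast_nonneg k
  calc C * ((k : ℝ) + 1) * (2 : ℝ) ^ (a * ((k + 1 : ℝ) / k0)) * (2 : ℝ) ^ (-(S.c * S.d / 20) * k)
      ≤ (2 : ℝ) ^ (S.c * S.d / 100 * (k : ℝ)) * (2 : ℝ) ^ (S.c * S.d / 100 * (k : ℝ)) *
        (2 : ℝ) ^ (-(S.c * S.d / 20) * k) := by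
        refine mul_le_mul_of_nonneg_right ?_ (by positivity)
        calc C * ((k : ℝ) + 1) * (2 : ℝ) ^ (a * ((k + 1 : ℝ) / k0)) ≤
              (2 : ℝ) ^ (S.c * S.d / 100 * (k : ℝ)) * (2 : ℝ) ^ (a * ((k + 1 : ℝ) / k0)) :=
              mul_le_mul_of_nonneg_right h1 (by positivity)
          _ ≤ _ := by
              refine mul_le_mul_of_nonneg_left ?_ (by positivity)
              exact Real.rpow_le_rpow_of_exponent_le (by norm_num) h3
    _ = (2 : ℝ) ^ (S.c * S.d / 100 * (k : ℝ) + S.c * S.d / 100 * (k : ℝ) + -(S.c * S.d / 20) * k) := by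
        rw [Real.rpow_add (by norm_num), Real.rpow_add (by norm_num)]
    _ ≤ _ := by
        refine Real.rpow_le_rpow_of_exponent_le (by norm_num) ?_
        have : S.ep / 40 * k ≤ S.c * S.d * 0.0015 * k := mul_le_mul_of_nonneg_right hep hk0'
        have h7 : 0 ≤ S.c * S.d * k := by positivity
        linarith

/-- membership in the heavy blocks -/
theorem hvy_facts (S : Sys) {k0 k k' : ℕ} (h : k' ∈ S.hvy k0 k) : k0 ≤ k' ∧ S.d / 10 * k ≤ k' := by
  unfold Sys.hvy at h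
  rw [mem_Ico] at h
  refine ⟨(le_max_left _ _).trans h.1, ?_⟩
  have h1 : ⌈S.kap * k⌉₊ ≤ k' := (le_max_right _ _).trans h.1
  have h2 : (⌈S.kap * k⌉₊ : ℝ) ≤ k' := by exact_mod_cast h1
  exact (Nat.le_ceil _).trans h2

theorem card_hvy (S : Sys) (k0 k : ℕ) : ((S.hvy k0 k).card : ℝ) ≤ 3 * ((k : ℝ) + 1) := by
  unfold Sys.hvy
  rw [Nat.card_Ico]
  have : 3 * (k + 1) - max k0 ⌈S.kap * k⌉₊ ≤ 3 * (k + 1) := Nat.sub_le _ _
  exact_mod_cast this

/-- the decay in the heavy blocks -/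
theorem hvy_decay (S : Sys) {k0 k k' : ℕ} (h : k' ∈ S.hvy k0 k) :
    (2 : ℝ) ^ (-(S.c / 2) * (k' : ℝ)) ≤ (2 : ℝ) ^ (-(S.c * S.d / 20) * k) := by
  refine Real.rpow_le_rpow_of_exponent_le (by norm_num) ?_
  have h1 := (hvy_facts S h).2
  have hc := S.c_pos
  have h2 : S.c / 2 * (S.d / 10 * k) ≤ S.c / 2 * k' := mul_le_mul_of_nonneg_left h1 (by positivity)
  have h3 : S.c / 2 * (S.d / 10 * k) = S.c * S.d / 20 * k := by ring
  linarith

theorem kF : KF := by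
  intro S
  obtain ⟨C, hC, hmass⟩ := mass_cell S
  obtain ⟨K1, hK1, hclose⟩ := closing S (36 * C) 60 (by norm_num)
  refine ⟨max (max S.K 10) K1, ?_⟩
  intro k0 hk0 k hkk j hj A
  have hk0K : S.K ≤ k0 := ((le_max_left S.K 10).trans (le_max_left _ _)).trans hk0
  have hk010 : 10 ≤ k0 := ((le_max_right S.K 10).trans (le_max_left _ _)).trans hk0
  have hk0K1 : K1 ≤ k0 := (le_max_right _ _).trans hk0
  by_cases hA : Aok k0 k A
  swap
  · rw [LS_eq_zero S hk0K hkk hj _ hA]; positivity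
  have hc := S.c_pos
  have hd := S.d_pos
  have hs := S.s_pos
  have hsc : S.s ≤ S.c / 2 := by
    have h1 := S.d_le
    rw [S.s_eq]
    have : S.c / 10 ^ 5 ≤ S.c := div_le_self hc.le (by norm_num)
    linarith
  have hs1 : S.s ≤ 1 := by have := S.s_lt; norm_num at this; linarith
  set ω : ℝ := (k + 1 : ℝ) / k0 with hω
  have hω0 : 0 ≤ ω := by rw [hω]; positivity
  have hmain : ∀ n ∈ (cell S.d k j).filter (Sys.rough k0), ∑ k' ∈ S.hvy k0 k, ∑ j' ∈ S.badc k',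
      ∑ x ∈ (S.Cand k' j').filter (fun x => x.1 ∣ n ∧ QK A (k', j') n x ∧
      A ⊆ x.2.primeFactors ∪ (n / x.1).primeFactors), tw S A x.2 (n / x.1) ≤
      (36 * ((k : ℝ) + 1) * (2 : ℝ) ^ (25 * ω) * (2 : ℝ) ^ (-(S.c * S.d / 20) * k)) * (sig A n : ℝ) ^ S.hh := by
    intro n hn
    rw [mem_filter] at hn
    have hnk := cell_lt hd hj hn.1
    have hn1 := cell_ge hn.1
    have hn0 : n ≠ 0 := by have := Nat.one_le_two_pow (n := k); omega
    set W : ℝ := (sig A n : ℝ) ^ S.hh with hW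
    have hW0 : 0 ≤ W := by rw [hW]; positivity
    have hdiv := divisors_le (by omega) hn0 hn.2 hnk
    have hAc : (2 : ℝ) ^ A.card ≤ (2 : ℝ) ^ (15 * ω) := by
      rw [← Real.rpow_natCast]
      exact Real.rpow_le_rpow_of_exponent_le (by norm_num) hA.2
    have hblock : ∀ k' ∈ S.hvy k0 k, ∑ j' ∈ S.badc k',
        ∑ x ∈ (S.Cand k' j').filter (fun x => x.1 ∣ n ∧ QK A (k', j') n x ∧
        A ⊆ x.2.primeFactors ∪ (n / x.1).primeFactors), tw S A x.2 (n / x.1) ≤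
        12 * (2 : ℝ) ^ (25 * ω) * (2 : ℝ) ^ (-(S.c * S.d / 20) * k) * W := by
      intro k' hk'
      have hf := hvy_facts S hk'
      have hKk' : S.K ≤ k' := hk0K.trans hf.1
      calc ∑ j' ∈ S.badc k',
            ∑ x ∈ (S.Cand k' j').filter (fun x => x.1 ∣ n ∧ QK A (k', j') n x ∧
            A ⊆ x.2.primeFactors ∪ (n / x.1).primeFactors), tw S A x.2 (n / x.1)
          ≤ ∑ j' ∈ S.badc k', ((n.divisors.card : ℝ) ^ 2 * 2 ^ A.card * (2 * (2 : ℝ) ^ (S.s * ((k' : ℝ) + 1))) * W) *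
            (2 : ℝ) ^ (-(S.u (S.cls k' j') + S.c) * k') :=
            Finset.sum_le_sum fun j' hj' => kf_cell S hKk' hj' hn0 A
        _ = ((n.divisors.card : ℝ) ^ 2 * 2 ^ A.card * (2 * (2 : ℝ) ^ (S.s * ((k' : ℝ) + 1))) * W) *
            ∑ j' ∈ S.badc k', (2 : ℝ) ^ (-(S.u (S.cls k' j') + S.c) * k') := by rw [Finset.mul_sum]
        _ ≤ ((n.divisors.card : ℝ) ^ 2 * 2 ^ A.card * (2 * (2 : ℝ) ^ (S.s * ((k' : ℝ) + 1))) * W) *
            (3 * (2 : ℝ) ^ (-S.c * (k' : ℝ))) := by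
            refine mul_le_mul_of_nonneg_left ?_ (by positivity)
            exact Pool.Agent.Helper88.KS.sum_badc_le S hKk' _ S.c fun j' _ => le_rfl
        _ ≤ (((2 : ℝ) ^ (5 * ω)) ^ 2 * (2 : ℝ) ^ (15 * ω) * (2 * (2 : ℝ) ^ (S.s * ((k' : ℝ) + 1))) * W) *
            (3 * (2 : ℝ) ^ (-S.c * (k' : ℝ))) := by
            refine mul_le_mul_of_nonneg_right ?_ (by positivity)
            refine mul_le_mul_of_nonneg_right ?_ hW0
            refine mul_le_mul_of_nonneg_right ?_ (by positivity)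
            exact mul_le_mul (pow_le_pow_left₀ (by positivity) hdiv 2) hAc (by positivity) (by positivity)
        _ = 6 * (2 : ℝ) ^ (25 * ω) * W * ((2 : ℝ) ^ (S.s * ((k' : ℝ) + 1)) * (2 : ℝ) ^ (-S.c * (k' : ℝ))) := by
            have e1 : ((2 : ℝ) ^ (5 * ω)) ^ 2 * (2 : ℝ) ^ (15 * ω) = (2 : ℝ) ^ (25 * ω) := by
              rw [← Real.rpow_natCast, ← Real.rpow_mul (by norm_num), ← Real.rpow_add (by norm_num)]
              congr 1
              push_cast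
              ring
            rw [e1]
            ring
        _ ≤ 6 * (2 : ℝ) ^ (25 * ω) * W * (2 * (2 : ℝ) ^ (-(S.c * S.d / 20) * k)) := by
            refine mul_le_mul_of_nonneg_left ?_ (by positivity)
            rw [← Real.rpow_add (by norm_num)]
            calc (2 : ℝ) ^ (S.s * ((k' : ℝ) + 1) + -S.c * (k' : ℝ)) ≤ (2 : ℝ) ^ (1 + -(S.c / 2) * (k' : ℝ)) := by
                  refine Real.rpow_le_rpow_of_exponent_le (by norm_num) ?_
                  have hk'0 : (0 : ℝ) ≤ k' := Nat.cast_nonneg _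
                  nlinarith
              _ = 2 * (2 : ℝ) ^ (-(S.c / 2) * (k' : ℝ)) := by rw [Real.rpow_add (by norm_num), Real.rpow_one]
              _ ≤ _ := mul_le_mul_of_nonneg_left (hvy_decay S hk') (by norm_num)
        _ = _ := by ring
    calc _ ≤ ∑ _k' ∈ S.hvy k0 k, 12 * (2 : ℝ) ^ (25 * ω) * (2 : ℝ) ^ (-(S.c * S.d / 20) * k) * W :=
          Finset.sum_le_sum hblock
      _ = (S.hvy k0 k).card * (12 * (2 : ℝ) ^ (25 * ω) * (2 : ℝ) ^ (-(S.c * S.d / 20) * k) * W) := by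
          rw [Finset.sum_const, nsmul_eq_mul]
      _ ≤ (3 * ((k : ℝ) + 1)) * (12 * (2 : ℝ) ^ (25 * ω) * (2 : ℝ) ^ (-(S.c * S.d / 20) * k) * W) :=
          mul_le_mul_of_nonneg_right (card_hvy S k0 k) (by positivity)
      _ = _ := by ring
  calc LS S k0 k j (QK A) A ≤ ∑ n ∈ (cell S.d k j).filter (Sys.rough k0),
        (36 * ((k : ℝ) + 1) * (2 : ℝ) ^ (25 * ω) * (2 : ℝ) ^ (-(S.c * S.d / 20) * k)) * (sig A n : ℝ) ^ S.hh :=
        Finset.sum_le_sum hmain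
    _ = (36 * ((k : ℝ) + 1) * (2 : ℝ) ^ (25 * ω) * (2 : ℝ) ^ (-(S.c * S.d / 20) * k)) *
        ∑ n ∈ (cell S.d k j).filter (Sys.rough k0), (sig A n : ℝ) ^ S.hh := by rw [Finset.mul_sum]
    _ ≤ (36 * ((k : ℝ) + 1) * (2 : ℝ) ^ (25 * ω) * (2 : ℝ) ^ (-(S.c * S.d / 20) * k)) *
        (C * (2 : ℝ) ^ (35 * ω) * 2 ^ ec S.d k) :=
        mul_le_mul_of_nonneg_left (hmass k0 hk010 k hkk j hj A hA) (by positivity)
    _ = (36 * C * ((k : ℝ) + 1) * (2 : ℝ) ^ (60 * ω) * (2 : ℝ) ^ (-(S.c * S.d / 20) * k)) * 2 ^ ec S.d k := by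
        have e1 : (2 : ℝ) ^ (60 * ω) = (2 : ℝ) ^ (25 * ω) * (2 : ℝ) ^ (35 * ω) := by
          rw [← Real.rpow_add (by norm_num)]
          congr 1
          ring
        rw [e1]
        ring
    _ ≤ (2 : ℝ) ^ (-(S.ep / 40) * k) * 2 ^ ec S.d k :=
        mul_le_mul_of_nonneg_right (hclose k0 hk0K1 k hkk) (by positivity)

end Pool.Agent.Helper35.KL
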