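import Mathlib

/-! Load theorem of project KS: the part of an integer composed of given primes, and elementary counting. -/

set_option autoImplicit false

open Finset

namespace Pool.Agent.Helper35.KL

/-- the part of `n` composed of the primes of `A` -/
def apt (A : Finset ℕ) (n : ℕ) : ℕ := ∏ p ∈ A, p ^ n.factorization p

/-- the part of `n` free of the primes of `A` -/
def fre (A : Finset ℕ) (n : ℕ) : ℕ := n / apt A n

/-- integers `≤ B` composed of primes of `A` -/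
def smo (A : Finset ℕ) (B : ℕ) : Finset ℕ := (Icc 1 B).filter (fun n => n.primeFactors ⊆ A)

theorem apt_mul (A : Finset ℕ) {m n : ℕ} (hm : m ≠ 0) (hn : n ≠ 0) : apt A (m * n) = apt A m * apt A n := by
  unfold apt
  rw [← prod_mul_distrib]
  refine prod_congr rfl fun p _ => ?_
  rw [Nat.factorization_mul hm hn, Finsupp.add_apply, pow_add]

theorem apt_eq (A : Finset ℕ) (n : ℕ) : apt A n = ∏ p ∈ n.primeFactors with p ∈ A, p ^ n.factorization p := by
  unfold apt
  rw [show (n.primeFactors.filter (fun p => p ∈ A)) = A.filter (fun p => p ∈ n.primeFactors) by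
    ext p; simp only [mem_filter]; tauto]
  rw [prod_filter]
  refine prod_congr rfl fun p _ => ?_
  split_ifs with h
  · rfl
  · rw [← Nat.support_factorization, Finsupp.mem_support_iff, not_not] at h
    rw [h, pow_zero]

theorem apt_dvd (A : Finset ℕ) {n : ℕ} (hn : n ≠ 0) : apt A n ∣ n := by
  rw [apt_eq]
  calc (∏ p ∈ n.primeFactors with p ∈ A, p ^ n.factorization p) ∣ ∏ p ∈ n.primeFactors, p ^ n.factorization p :=
        prod_dvd_prod_of_subset _ _ _ (filter_subset _ _)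
    _ = n := Nat.prod_factorization_pow_eq_self hn

theorem apt_pos (A : Finset ℕ) (n : ℕ) : 0 < apt A n := by
  rw [apt_eq]
  refine prod_pos fun p hp => ?_
  exact pow_pos (Nat.prime_of_mem_primeFactors (mem_filter.mp hp).1).pos _

theorem apt_primeFactors (A : Finset ℕ) (n : ℕ) : (apt A n).primeFactors ⊆ A := by
  intro p hp
  have hpp := Nat.prime_of_mem_primeFactors hp
  have hd := Nat.dvd_of_mem_primeFactors hp
  rw [apt_eq, hpp.prime.dvd_finsetProd_iff] at hd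
  obtain ⟨r, hr, hd⟩ := hd
  have hr1 := mem_filter.mp hr
  have hrp := Nat.prime_of_mem_primeFactors hr1.1
  have := (Nat.prime_dvd_prime_iff_eq hpp hrp).mp (hpp.dvd_of_dvd_pow hd)
  rw [this]; exact hr1.2

theorem apt_mem_smo (A : Finset ℕ) {n B : ℕ} (hn : n ≠ 0) (hB : n ≤ B) : apt A n ∈ smo A B := by
  unfold smo
  rw [mem_filter, mem_Icc]
  exact ⟨⟨apt_pos A n, (Nat.le_of_dvd (Nat.pos_of_ne_zero hn) (apt_dvd A hn)).trans hB⟩, apt_primeFactors A n⟩

theorem apt_mul_fre (A : Finset ℕ) {n : ℕ} (hn : n ≠ 0) : apt A n * fre A n = n :=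
  Nat.mul_div_cancel' (apt_dvd A hn)

theorem fre_dvd (A : Finset ℕ) {n : ℕ} (hn : n ≠ 0) : fre A n ∣ n := Dvd.intro_left _ (apt_mul_fre A hn)

theorem fre_pos (A : Finset ℕ) {n : ℕ} (hn : n ≠ 0) : 0 < fre A n :=
  Nat.pos_of_dvd_of_pos (fre_dvd A hn) (Nat.pos_of_ne_zero hn)

theorem apt_le (A : Finset ℕ) {n : ℕ} (hn : n ≠ 0) : apt A n ≤ n :=
  Nat.le_of_dvd (Nat.pos_of_ne_zero hn) (apt_dvd A hn)

theorem apt_le_mul (A : Finset ℕ) {m n : ℕ} (hm : m ≠ 0) (hn : n ≠ 0) : apt A n ≤ apt A (m * n) := by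
  rw [apt_mul A hm hn]
  exact Nat.le_mul_of_pos_left _ (apt_pos A m)

/-- sum over the fibres of a map -/
theorem sum_fib {τ γ : Type*} [DecidableEq γ] (T : Finset τ) (C : Finset γ) (F : τ → γ) (hF : ∀ t ∈ T, F t ∈ C)
    (f : τ → ℝ) (M g : γ → ℝ) (hg : ∀ c ∈ C, 0 ≤ g c) (hf : ∀ t ∈ T, f t ≤ g (F t))
    (hM : ∀ c ∈ C, ((T.filter (fun t => F t = c)).card : ℝ) ≤ M c) :
    ∑ t ∈ T, f t ≤ ∑ c ∈ C, M c * g c := by
  rw [← sum_fiberwise_of_maps_to hF]
  refine sum_le_sum fun c hc => ?_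
  calc ∑ t ∈ T.filter (fun t => F t = c), f t ≤ ∑ t ∈ T.filter (fun t => F t = c), g c := by
        refine sum_le_sum fun t ht => ?_
        have h := mem_filter.mp ht
        rw [← h.2]; exact hf t h.1
    _ = ((T.filter (fun t => F t = c)).card : ℝ) * g c := by rw [sum_const, nsmul_eq_mul]
    _ ≤ M c * g c := mul_le_mul_of_nonneg_right (hM c hc) (hg c hc)

/-- cardinality through the fibres of a map -/
theorem card_fib {τ γ : Type*} [DecidableEq γ] (T : Finset τ) (C : Finset γ) (F : τ → γ) (hF : ∀ t ∈ T, F t ∈ C)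
    (M : γ → ℝ) (hM : ∀ c ∈ C, ((T.filter (fun t => F t = c)).card : ℝ) ≤ M c) :
    (T.card : ℝ) ≤ ∑ c ∈ C, M c := by
  have := sum_fib T C F hF (fun _ => 1) M (fun _ => 1) (fun _ _ => zero_le_one) (fun _ _ => le_rfl) hM
  simpa using this

/-- cardinality through the fibres of a map, constant bound -/
theorem card_fib_const {τ γ : Type*} [DecidableEq γ] (T : Finset τ) (C : Finset γ) (F : τ → γ)
    (hF : ∀ t ∈ T, F t ∈ C) (M : ℝ) (hM : ∀ c ∈ C, ((T.filter (fun t => F t = c)).card : ℝ) ≤ M) :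
    (T.card : ℝ) ≤ C.card * M := by
  have := card_fib T C F hF (fun _ => M) hM
  simpa using this

/-- multiples of `g` in an interval -/
theorem card_mult (b H g : ℕ) (hg : 0 < g) : (((Ico b (b + H)).filter (fun n => g ∣ n)).card : ℝ) ≤ H / g + 1 := by
  have hg' : (0:ℝ) < g := by exact_mod_cast hg
  have h1 : ((Ico b (b + H)).filter (fun n => g ∣ n)).card ≤ ((Ico (b : ℤ) ((b + H : ℕ) : ℤ)).filter (fun n => (g : ℤ) ∣ n)).card := by
    refine card_le_card_of_injOn (fun n : ℕ => (n : ℤ)) ?_ (fun x _ y _ h => by simpa using h)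
    intro n hn
    rw [mem_coe, mem_filter, mem_Ico] at hn
    rw [mem_coe, mem_filter, mem_Ico]
    dsimp only
    exact ⟨⟨by exact_mod_cast hn.1.1, by exact_mod_cast hn.1.2⟩, by exact_mod_cast hn.2⟩
  have h2 := Int.Ico_filter_dvd_card (r := (g : ℤ)) (b : ℤ) ((b + H : ℕ) : ℤ) (by exact_mod_cast hg)
  have h3 : ((((Ico (b : ℤ) ((b + H : ℕ) : ℤ)).filter (fun n => (g : ℤ) ∣ n)).card : ℤ) : ℝ) ≤ H / g + 1 := by
    rw [h2]
    push_cast
    refine max_le ?_ (by positivity)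
    have h4 := Int.ceil_lt_add_one (((b : ℚ) + H) / (g : ℚ))
    have h5 := Int.le_ceil ((b : ℚ) / (g : ℚ))
    have h6 : ((⌈((b : ℚ) + H) / (g : ℚ)⌉ - ⌈(b : ℚ) / (g : ℚ)⌉ : ℤ) : ℚ) ≤ (H : ℚ) / g + 1 := by
      push_cast
      have : ((b : ℚ) + H) / g = (b : ℚ) / g + H / g := by ring
      linarith
    have h7 : (((⌈((b : ℚ) + H) / (g : ℚ)⌉ - ⌈(b : ℚ) / (g : ℚ)⌉ : ℤ) : ℚ) : ℝ) ≤ (((H : ℚ) / g + 1 : ℚ) : ℝ) := by
      exact_mod_cast h6
    push_cast at h7
    exact h7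
  calc (((Ico b (b + H)).filter (fun n => g ∣ n)).card : ℝ)
      ≤ (((Ico (b : ℤ) ((b + H : ℕ) : ℤ)).filter (fun n => (g : ℤ) ∣ n)).card : ℝ) := by exact_mod_cast h1
    _ ≤ _ := by exact_mod_cast h3

end Pool.Agent.Helper35.KL
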