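import Pool.Agent.Helper18.KL.PowA
import Pool.Agent.Helper88.KS.Mult1
import Pool.Agent.Helper16.KS.Basic
import Pool.Agent.Helper35.KL.Base

/-! Load theorem of project KS: auxiliary facts about candidates, rough numbers and the conditioning set. -/

set_option autoImplicit false
open scoped Classical
open Finset Filter

namespace Pool.Agent.Helper35.KL

open Pool.Agent.Helper16.KS Pool.Agent.Helper18.KL

/-- number of divisors of a rough number -/
theorem divisors_le {k0 k n : ℕ} (hk0 : 1 ≤ k0) (hn0 : n ≠ 0) (hn : Sys.rough k0 n) (hnk : n < 2 ^ (k + 1)) :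
    (n.divisors.card : ℝ) ≤ (2 : ℝ) ^ (5 * ((k + 1 : ℝ) / k0)) := by
  have h1 : n.divisors.card ≤ 2 ^ n.primeFactorsList.length := by
    rw [Nat.card_divisors hn0]
    calc ∏ p ∈ n.primeFactors, (n.factorization p + 1) ≤ ∏ p ∈ n.primeFactors, 2 ^ n.factorization p :=
          Finset.prod_le_prod (fun _ _ => Nat.zero_le _) fun p _ => Nat.lt_two_pow_self
      _ = 2 ^ ∑ p ∈ n.primeFactors, n.factorization p := Finset.prod_pow_eq_pow_sum _ _ _
      _ = 2 ^ n.primeFactorsList.length := by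
          congr 1
          rw [← ArithmeticFunction.cardFactors_apply, ArithmeticFunction.cardFactors_eq_sum_factorization]
          rfl
  have h2 := Sys.rough_omega_le hk0 hn0 hn hnk
  calc (n.divisors.card : ℝ) ≤ ((2 ^ n.primeFactorsList.length : ℕ) : ℝ) := by exact_mod_cast h1
    _ = (2 : ℝ) ^ (n.primeFactorsList.length : ℝ) := by rw [Real.rpow_natCast]; push_cast; rfl
    _ ≤ _ := by
        refine Real.rpow_le_rpow_of_exponent_le (by norm_num) (h2.trans (le_of_eq ?_))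
        ring

/-- number of prime factors -/
theorem card_primeFactors_le {k0 k n : ℕ} (hk0 : 1 ≤ k0) (hn0 : n ≠ 0) (hn : Sys.rough k0 n)
    (hnk : n < 2 ^ (k + 1)) : (n.primeFactors.card : ℝ) ≤ 5 * ((k + 1 : ℝ) / k0) := by
  have h1 : n.primeFactors.card ≤ n.primeFactorsList.length := by
    rw [Nat.primeFactors]
    exact List.toFinset_card_le _
  have h2 := Sys.rough_omega_le hk0 hn0 hn hnk
  calc (n.primeFactors.card : ℝ) ≤ (n.primeFactorsList.length : ℝ) := by exact_mod_cast h1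
    _ ≤ 5 * (k + 1) / k0 := h2
    _ = _ := by ring

/-- the prime factors of a candidate are at least `2^(k/5)` -/
theorem cand_rough (S : Sys) {k j : ℕ} (hk : S.K ≤ k) (hj : j ∈ S.badc k) {x : ℕ × ℕ} (hx : x ∈ S.Cand k j) :
    Sys.rough k (x.1 * x.2) := by
  intro p hp hpd
  rw [S.mem_badc] at hj
  obtain ⟨-, -, -, -, -, h6, -⟩ := S.cand k hk j hj.1 hj.2 x hx
  have h7 := h6 p hp hpd
  have hu := S.u_ge (S.cls k j)
  have hc := S.c_pos
  have hdel := S.del_pos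
  have hdel2 := S.del_le
  have hp1 : (1 : ℝ) ≤ p := by exact_mod_cast hp.one_lt.le
  have hp0 : (0 : ℝ) < p := by linarith
  have hk0 : (0 : ℝ) ≤ k := Nat.cast_nonneg k
  have h8 : (2 : ℝ) ^ ((k : ℝ) / 10) ≤ (p : ℝ) ^ (1 / 2 : ℝ) := by
    calc (2 : ℝ) ^ ((k : ℝ) / 10) ≤ (2 : ℝ) ^ ((S.u (S.cls k j) + S.c) * k) := by
          refine Real.rpow_le_rpow_of_exponent_le (by norm_num) ?_
          nlinarith
      _ ≤ (p : ℝ) ^ (1 / 2 - S.del) := h7
      _ ≤ _ := Real.rpow_le_rpow_of_exponent_le hp1 (by linarith)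
  calc (2 : ℝ) ^ ((k : ℝ) / 5) = ((2 : ℝ) ^ ((k : ℝ) / 10)) ^ (2 : ℝ) := by
        rw [← Real.rpow_mul (by norm_num)]; congr 1; ring
    _ ≤ ((p : ℝ) ^ (1 / 2 : ℝ)) ^ (2 : ℝ) := Real.rpow_le_rpow (by positivity) h8 (by norm_num)
    _ = p := by rw [← Real.rpow_mul hp0.le]; norm_num

/-- the conditioning set consists of few large primes -/
def Aok (k0 k : ℕ) (A : Finset ℕ) : Prop :=
  (∀ p ∈ A, p.Prime ∧ 2 ^ (k0 / 5) ≤ p) ∧ (A.card : ℝ) ≤ 15 * ((k + 1 : ℝ) / k0)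

theorem nat_pow_le {k0 p : ℕ} (h : (2 : ℝ) ^ ((k0 : ℝ) / 5) ≤ p) : 2 ^ (k0 / 5) ≤ p := by
  have h1 : ((2 ^ (k0 / 5) : ℕ) : ℝ) ≤ (2 : ℝ) ^ ((k0 : ℝ) / 5) := by
    push_cast
    rw [← Real.rpow_natCast]
    refine Real.rpow_le_rpow_of_exponent_le (by norm_num) ?_
    exact Nat.cast_div_le
  exact_mod_cast h1.trans h

theorem omega_cand (S : Sys) {k j : ℕ} (hk : S.K ≤ k) (hj : j ∈ S.badc k) {x : ℕ × ℕ} (hx : x ∈ S.Cand k j) :
    (x.2.primeFactors.card : ℝ) ≤ 10 := by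
  have hk1 : 1 ≤ k := S.K_pos.trans hk
  obtain ⟨h1, h2, h3, h4, h5, h6, h7, -, -⟩ := S.cand_facts hk hj hx
  have hm0 : x.2 ≠ 0 := by omega
  have hr : Sys.rough k x.2 := fun p hp hpd => cand_rough S hk hj hx p hp (hpd.mul_left _)
  have hlt : x.2 < 2 ^ (k + 1) := lt_of_le_of_lt (Nat.le_mul_of_pos_left _ h1.pos) h7
  have h8 := card_primeFactors_le hk1 hm0 hr hlt
  have hk' : (1 : ℝ) ≤ k := by exact_mod_cast hk1
  have h9 : ((k : ℝ) + 1) / k ≤ 2 := by rw [div_le_iff₀ (by linarith)]; linarith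
  linarith

/-- terms exist only for sets `A` of few large primes -/
theorem aok_of (S : Sys) {k0 k k' j' n : ℕ} (hk0 : S.K ≤ k0) (hkk : k0 ≤ k) (hk' : k0 ≤ k') (hj' : j' ∈ S.badc k')
    (hn0 : n ≠ 0) (hn : Sys.rough k0 n) (hnk : n < 2 ^ (k + 1)) {x : ℕ × ℕ} (hx : x ∈ S.Cand k' j') (hxn : x.1 ∣ n)
    {A : Finset ℕ} (hA : A ⊆ x.2.primeFactors ∪ (n / x.1).primeFactors) : Aok k0 k A := by
  have hk1 : 1 ≤ k0 := S.K_pos.trans hk0
  have hr := cand_rough S (hk0.trans hk') hj' hx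
  have hl : n / x.1 ∣ n := Nat.div_dvd_of_dvd hxn
  constructor
  · intro p hp
    rcases Finset.mem_union.mp (hA hp) with h | h
    · have h1 := Nat.mem_primeFactors.mp h
      refine ⟨h1.1, nat_pow_le ?_⟩
      refine le_trans ?_ (hr p h1.1 (h1.2.1.mul_left _))
      refine Real.rpow_le_rpow_of_exponent_le (by norm_num) ?_
      have : (k0 : ℝ) ≤ k' := by exact_mod_cast hk'
      linarith
    · have h1 := Nat.mem_primeFactors.mp h
      exact ⟨h1.1, nat_pow_le (hn p h1.1 (h1.2.1.trans hl))⟩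
  · have h1 := omega_cand S (hk0.trans hk') hj' hx
    have h2 := card_primeFactors_le hk1 hn0 hn hnk
    have h3 : ((n / x.1).primeFactors.card : ℝ) ≤ n.primeFactors.card := by
      exact_mod_cast Finset.card_le_card (Nat.primeFactors_mono hl hn0)
    have h4 : (A.card : ℝ) ≤ x.2.primeFactors.card + (n / x.1).primeFactors.card := by
      exact_mod_cast (Finset.card_le_card hA).trans (Finset.card_union_le _ _)
    have h5 : (1 : ℝ) ≤ (k + 1 : ℝ) / k0 := by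
      have h6 : (1 : ℝ) ≤ k0 := by exact_mod_cast hk1
      have h7 : (k0 : ℝ) ≤ k := by exact_mod_cast hkk
      rw [le_div_iff₀ (by linarith)]
      linarith
    linarith

theorem LS_eq_zero (S : Sys) {k0 k j : ℕ} (hk0 : S.K ≤ k0) (hkk : k0 ≤ k) (hj : j < nc S.d k)
    (Q : ℕ × ℕ → ℕ → ℕ × ℕ → Prop) {A : Finset ℕ} (hA : ¬ Aok k0 k A) : LS S k0 k j Q A = 0 := by
  unfold LS
  refine Finset.sum_eq_zero fun n hn => ?_
  refine Finset.sum_eq_zero fun k' hk' => ?_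
  refine Finset.sum_eq_zero fun j' hj' => ?_
  have hn' := Finset.mem_filter.mp hn
  have h1 := cell_ge hn'.1
  have hn0 : n ≠ 0 := by
    have := Nat.one_le_two_pow (n := k)
    omega
  have hlt := cell_lt S.d_pos hj hn'.1
  have hk'' : k0 ≤ k' := by
    unfold Sys.hvy at hk'
    rw [Finset.mem_Ico] at hk'
    exact (le_max_left _ _).trans hk'.1
  rw [show ((S.Cand k' j').filter (fun x => x.1 ∣ n ∧ Q (k', j') n x ∧
      A ⊆ x.2.primeFactors ∪ (n / x.1).primeFactors)) = ∅ by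
    rw [Finset.filter_eq_empty_iff]
    rintro x hx ⟨h2, h3, h4⟩
    exact hA (aok_of S hk0 hkk hk'' hj' hn0 hn'.2 hlt hx h2 h4)]
  exact Finset.sum_empty

/-- `q^(hh-1)` for a candidate `(q, m)` -/
theorem cand_q (S : Sys) {k j : ℕ} (hk : S.K ≤ k) (hj : j ∈ S.badc k) {x : ℕ × ℕ} (hx : x ∈ S.Cand k j) :
    (x.1 : ℝ) ^ (S.hh - 1) ≤ (2 : ℝ) ^ (-(S.u (S.cls k j) + S.c + S.del) * k) := by
  obtain ⟨h1, h2, h3, h4, h5, h6, h7, -, -⟩ := S.cand_facts hk hj hx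
  rw [S.mem_badc] at hj
  obtain ⟨-, -, -, -, -, -, h8⟩ := S.cand k hk j hj.1 hj.2 x hx
  have hq0 : (0 : ℝ) < x.1 := by exact_mod_cast h1.pos
  have hq1 : (1 : ℝ) ≤ x.1 := by exact_mod_cast h1.pos
  have hm0 : (0 : ℝ) < x.2 := by
    have : 0 < x.2 := by omega
    exact_mod_cast this
  have hdel := S.del_pos
  have hhh := S.hh_le
  have h9 : (2 : ℝ) ^ (k : ℝ) ≤ x.1 * x.2 := by
    rw [Real.rpow_natCast]
    exact_mod_cast h6
  have h10 : ((2 : ℝ) ^ (k : ℝ)) ^ (1 / 2 + S.del) ≤ (x.1 : ℝ) ^ (1 / 2 + S.del) * (x.2 : ℝ) ^ (1 / 2 + S.del) := by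
    rw [← Real.mul_rpow hq0.le hm0.le]
    exact Real.rpow_le_rpow (by positivity) h9 (by linarith)
  have h11 : ((2 : ℝ) ^ (k : ℝ)) ^ (1 / 2 + S.del) ≤
      (x.1 : ℝ) ^ (1 / 2 + S.del) * (2 : ℝ) ^ ((1 / 2 - S.u (S.cls k j) - S.c) * k) :=
    h10.trans (mul_le_mul_of_nonneg_left h8 (by positivity))
  have h12 : (2 : ℝ) ^ ((S.u (S.cls k j) + S.c + S.del) * k) ≤ (x.1 : ℝ) ^ (1 / 2 + S.del) := by
    have e1 : ((2 : ℝ) ^ (k : ℝ)) ^ (1 / 2 + S.del) = (2 : ℝ) ^ ((S.u (S.cls k j) + S.c + S.del) * k) *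
        (2 : ℝ) ^ ((1 / 2 - S.u (S.cls k j) - S.c) * k) := by
      rw [← Real.rpow_mul (by norm_num), ← Real.rpow_add (by norm_num)]
      congr 1
      ring
    rw [e1] at h11
    exact le_of_mul_le_mul_right h11 (by positivity)
  calc (x.1 : ℝ) ^ (S.hh - 1) ≤ (x.1 : ℝ) ^ (-(1 / 2 + S.del)) :=
        Real.rpow_le_rpow_of_exponent_le hq1 (by linarith)
    _ = ((x.1 : ℝ) ^ (1 / 2 + S.del))⁻¹ := Real.rpow_neg hq0.le _
    _ ≤ ((2 : ℝ) ^ ((S.u (S.cls k j) + S.c + S.del) * k))⁻¹ := inv_anti₀ (by positivity) h12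
    _ = _ := by rw [← Real.rpow_neg (by norm_num)]; congr 1; ring

/-- `p^(-hh)` for a prime factor of a candidate -/
theorem cand_p (S : Sys) {k j : ℕ} (hk : S.K ≤ k) (hj : j ∈ S.badc k) {x : ℕ × ℕ} (hx : x ∈ S.Cand k j)
    {p : ℕ} (hp : p.Prime) (hpx : p ∣ x.2) :
    (p : ℝ) ^ (-S.hh) ≤ (2 : ℝ) ^ (-(S.u (S.cls k j) + S.c) * k + S.s * (k + 1)) := by
  obtain ⟨h1, h2, h3, h4, h5, h6, h7, -, -⟩ := S.cand_facts hk hj hx
  rw [S.mem_badc] at hj
  obtain ⟨-, -, -, -, -, h8, -⟩ := S.cand k hk j hj.1 hj.2 x hx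
  have h9 := h8 p hp (hpx.mul_left _)
  have hp0 : (0 : ℝ) < p := by exact_mod_cast hp.pos
  have hp1 : (1 : ℝ) ≤ p := by exact_mod_cast hp.pos
  have hplt : (p : ℝ) ≤ (2 : ℝ) ^ ((k : ℝ) + 1) := by
    have h10 : p ≤ x.1 * x.2 := Nat.le_of_dvd (Nat.mul_pos h1.pos (by omega)) (hpx.mul_left _)
    have h11 : p ≤ 2 ^ (k + 1) := by omega
    have h12 : (p : ℝ) ≤ (2 : ℝ) ^ ((k + 1 : ℕ) : ℝ) := by rw [Real.rpow_natCast]; exact_mod_cast h11
    push_cast at h12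
    exact h12
  have hs := S.s_pos
  have htau := S.tau_pos
  have e1 : (p : ℝ) ^ (-S.hh) = ((p : ℝ) ^ (1 / 2 - S.del))⁻¹ * (p : ℝ) ^ (S.s - S.tau) := by
    rw [← Real.rpow_neg hp0.le, ← Real.rpow_add hp0, S.hh_eq]
    congr 1
    ring
  rw [e1, Real.rpow_add (by norm_num)]
  refine mul_le_mul ?_ ?_ (by positivity) (by positivity)
  · calc ((p : ℝ) ^ (1 / 2 - S.del))⁻¹ ≤ ((2 : ℝ) ^ ((S.u (S.cls k j) + S.c) * k))⁻¹ := inv_anti₀ (by positivity) h9
      _ = _ := by rw [← Real.rpow_neg (by norm_num)]; congr 1; ring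
  · calc (p : ℝ) ^ (S.s - S.tau) ≤ (p : ℝ) ^ S.s := Real.rpow_le_rpow_of_exponent_le hp1 (by linarith)
      _ ≤ ((2 : ℝ) ^ ((k : ℝ) + 1)) ^ S.s := Real.rpow_le_rpow hp0.le hplt hs.le
      _ = _ := by rw [← Real.rpow_mul (by norm_num)]; congr 1; ring

/-- `log` in base `P0 = 2^(k0/5)` -/
theorem log_le {k0 k x : ℕ} (hk0 : 10 ≤ k0) (hkk : k0 ≤ k) (hx : x < 2 ^ (k + 2)) :
    (Nat.log (2 ^ (k0 / 5)) x : ℝ) ≤ 20 * ((k + 1 : ℝ) / k0) := by
  rcases Nat.eq_zero_or_pos x with h0 | hpos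
  · rw [h0]; simp; positivity
  have h1 : (2 ^ (k0 / 5)) ^ Nat.log (2 ^ (k0 / 5)) x ≤ x := Nat.pow_log_le_self _ hpos.ne'
  have h2 : 2 ^ (k0 / 5 * Nat.log (2 ^ (k0 / 5)) x) < 2 ^ (k + 2) := by
    rw [pow_mul]; exact lt_of_le_of_lt h1 hx
  have h3 : k0 / 5 * Nat.log (2 ^ (k0 / 5)) x < k + 2 := (Nat.pow_lt_pow_iff_right (by norm_num)).mp h2
  have h4 : k0 ≤ 10 * (k0 / 5) := by omega
  have h5 : k0 * Nat.log (2 ^ (k0 / 5)) x ≤ 10 * (k + 2) := by
    calc k0 * Nat.log (2 ^ (k0 / 5)) x ≤ (10 * (k0 / 5)) * Nat.log (2 ^ (k0 / 5)) x := Nat.mul_le_mul_right _ h4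
      _ = 10 * (k0 / 5 * Nat.log (2 ^ (k0 / 5)) x) := by ring
      _ ≤ 10 * (k + 2) := Nat.mul_le_mul_left _ h3.le
  have h6 : (k0 : ℝ) * Nat.log (2 ^ (k0 / 5)) x ≤ 10 * (k + 2) := by exact_mod_cast h5
  have h7 : (10 : ℝ) ≤ k0 := by exact_mod_cast hk0
  have h8 : (0 : ℝ) ≤ k := Nat.cast_nonneg k
  rw [mul_div_assoc', le_div_iff₀ (by linarith)]
  linarith

/-- products of subsets of `A` -/
def PA (A : Finset ℕ) : Finset ℕ := A.powerset.image (fun B => ∏ p ∈ B, p)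

theorem card_PA (A : Finset ℕ) : (PA A).card ≤ 2 ^ A.card := by
  refine (Finset.card_image_le).trans ?_
  rw [Finset.card_powerset]

theorem mA_mem (A : Finset ℕ) (m : ℕ) : mA A m ∈ PA A := by
  unfold mA PA
  rw [Finset.mem_image]
  exact ⟨m.primeFactors ∩ A, Finset.mem_powerset.mpr Finset.inter_subset_right, rfl⟩

theorem mA_pos (A : Finset ℕ) (m : ℕ) : 0 < mA A m :=
  Finset.prod_pos fun p hp => (Nat.prime_of_mem_primeFactors (Finset.mem_inter.mp hp).1).pos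

/-- subproducts of a squarefree number -/
theorem sub_prod {m : ℕ} (hm : Squarefree m) {B : Finset ℕ} (hB : B ⊆ m.primeFactors) :
    (∏ p ∈ B, p) * ∏ p ∈ m.primeFactors \ B, p = m := by
  rw [mul_comm, Finset.prod_sdiff hB, Nat.prod_primeFactors_of_squarefree hm]

/-- the effect of additional primes on `sig` -/
theorem sig_union (A B : Finset ℕ) {l : ℕ} (hl : l ≠ 0) :
    sig (A ∪ B) l = sig A l * ∏ p ∈ B.filter (fun p => p ∉ A ∧ p.Prime ∧ p ∣ l), p := by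
  have h1 : ∏ p ∈ B.filter (fun p => p ∉ A ∧ p.Prime ∧ p ∣ l), p =
      ∏ p ∈ l.primeFactors, if p ∈ B ∧ p ∉ A then p else 1 := by
    rw [← Finset.prod_filter]
    refine Finset.prod_congr ?_ fun _ _ => rfl
    ext p
    simp only [Finset.mem_filter, Nat.mem_primeFactors]
    tauto
  rw [h1]
  unfold sig
  rw [← Finset.prod_mul_distrib]
  refine Finset.prod_congr rfl fun p hp => ?_
  have hv : 1 ≤ l.factorization p :=
    (Nat.prime_of_mem_primeFactors hp).factorization_pos_of_dvd hl (Nat.dvd_of_mem_primeFactors hp)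
  by_cases hA : p ∈ A
  · simp [hA]
  · by_cases hB : p ∈ B
    · simp only [Finset.mem_union, hA, hB, or_true, if_true, not_false_eq_true, and_self, if_false]
      rw [← pow_succ]
      congr 1
      omega
    · simp [hA, hB]

theorem sig_mono (A : Finset ℕ) {l n : ℕ} (hn : n ≠ 0) (h : l ∣ n) : sig A l ≤ sig A n := by
  have hl : l ≠ 0 := by rintro rfl; exact hn (Nat.eq_zero_of_zero_dvd h)
  unfold sig
  have hsub := Nat.primeFactors_mono h hn
  rw [← Finset.prod_sdiff hsub]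
  have h2 : ∏ p ∈ l.primeFactors, (if p ∈ A then p ^ l.factorization p else p ^ (l.factorization p - 1)) ≤
      ∏ p ∈ l.primeFactors, (if p ∈ A then p ^ n.factorization p else p ^ (n.factorization p - 1)) := by
    refine Finset.prod_le_prod (fun _ _ => Nat.zero_le _) fun p hp => ?_
    have hpp := (Nat.prime_of_mem_primeFactors hp).pos
    have hf : l.factorization p ≤ n.factorization p := (Nat.factorization_le_iff_dvd hl hn).mpr h p
    split_ifs
    · exact Nat.pow_le_pow_right hpp hf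
    · exact Nat.pow_le_pow_right hpp (by omega)
  refine h2.trans ?_
  refine Nat.le_mul_of_pos_left _ ?_
  refine Finset.prod_pos fun p hp => ?_
  have hpp := (Nat.prime_of_mem_primeFactors (Finset.mem_sdiff.mp hp).1).pos
  split_ifs
  · exact pow_pos hpp _
  · exact pow_pos hpp _

/-- polynomials are smaller than exponentials -/
theorem poly_exp (C a : ℝ) (ha : 0 < a) (r : ℕ) :
    ∀ᶠ k : ℕ in atTop, C * ((k : ℝ) + 1) ^ r ≤ (2 : ℝ) ^ (a * (k : ℝ)) := by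
  have hl : 0 < a * Real.log 2 := mul_pos ha (Real.log_pos (by norm_num))
  have h1 := isLittleO_pow_exp_pos_mul_atTop r hl
  have h2 := h1.bound (c := 1 / ((|C| + 1) * Real.exp (a * Real.log 2))) (by positivity)
  have h3 : Tendsto (fun k : ℕ => (k : ℝ) + 1) atTop atTop :=
    tendsto_atTop_add_const_right _ _ tendsto_natCast_atTop_atTop
  filter_upwards [h3.eventually h2] with k hk
  rw [Real.norm_of_nonneg (by positivity), Real.norm_of_nonneg (by positivity)] at hk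
  have e1 : Real.exp (a * Real.log 2 * ((k : ℝ) + 1)) = (2 : ℝ) ^ (a * (k : ℝ)) * Real.exp (a * Real.log 2) := by
    rw [Real.rpow_def_of_pos (by norm_num), ← Real.exp_add]
    congr 1
    ring
  rw [e1] at hk
  have h4 : (0 : ℝ) < (|C| + 1) := by positivity
  have h5 : 1 / ((|C| + 1) * Real.exp (a * Real.log 2)) * ((2 : ℝ) ^ (a * (k : ℝ)) * Real.exp (a * Real.log 2)) =
      (2 : ℝ) ^ (a * (k : ℝ)) / (|C| + 1) := by
    field_simp
  rw [h5, le_div_iff₀ h4] at hk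
  calc C * ((k : ℝ) + 1) ^ r ≤ (|C| + 1) * ((k : ℝ) + 1) ^ r := by
        refine mul_le_mul_of_nonneg_right ?_ (by positivity)
        linarith [le_abs_self C]
    _ = ((k : ℝ) + 1) ^ r * (|C| + 1) := by ring
    _ ≤ _ := hk

end Pool.Agent.Helper35.KL
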