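import Pool.Agent.Helper35.KL.Facts

/-! Load theorem of project KS: terms with a free prime of `m` (`n` first). -/

set_option autoImplicit false
open scoped Classical
open Finset Filter

namespace Pool.Agent.Helper35.KL

open Pool.Agent.Helper16.KS Pool.Agent.Helper18.KL

/-- the primes of `m` outside `A` which divide `l` -/
def gg (A : Finset ℕ) (m l : ℕ) : ℕ := ∏ p ∈ m.primeFactors.filter (fun p => p ∉ A ∧ p.Prime ∧ p ∣ l), p

theorem gg_pos (A : Finset ℕ) (m l : ℕ) : 0 < gg A m l :=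
  Finset.prod_pos fun _ hp => (Finset.mem_filter.mp hp).2.2.1.pos

theorem gg_dvd (A : Finset ℕ) (m : ℕ) {l : ℕ} : gg A m l ∣ l := by
  unfold gg
  refine Finset.prod_primes_dvd l (fun p hp => ?_) fun p hp => (Finset.mem_filter.mp hp).2.2.2
  exact (Finset.mem_filter.mp hp).2.2.1.prime

/-- `m_A g` times the product of the remaining primes -/
theorem mA_gg (A : Finset ℕ) {m : ℕ} (hm : Squarefree m) (l : ℕ) :
    ∃ r : ℕ, mA A m * gg A m l * r = m ∧ ∀ p : ℕ, p.Prime → p ∣ m → p ∉ A → ¬ p ∣ l → p ∣ r := by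
  set B1 := m.primeFactors ∩ A with hB1
  set B2 := m.primeFactors.filter (fun p => p ∉ A ∧ p.Prime ∧ p ∣ l) with hB2
  have hdisj : Disjoint B1 B2 := by
    rw [Finset.disjoint_left]
    intro p h1 h2
    exact (Finset.mem_filter.mp h2).2.1 (Finset.mem_inter.mp h1).2
  have hsub : B1 ∪ B2 ⊆ m.primeFactors := Finset.union_subset Finset.inter_subset_left (Finset.filter_subset _ _)
  refine ⟨∏ p ∈ m.primeFactors \ (B1 ∪ B2), p, ?_, ?_⟩
  · have h := sub_prod hm hsub
    rw [Finset.prod_union hdisj] at h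
    exact h
  · intro p hp hpm hpA hpl
    refine Finset.dvd_prod_of_mem _ ?_
    rw [Finset.mem_sdiff, Finset.mem_union, hB1, hB2, Finset.mem_inter, Finset.mem_filter]
    refine ⟨Nat.mem_primeFactors.mpr ⟨hp, hpm, hm.ne_zero⟩, ?_⟩
    rintro (h | h)
    · exact hpA h.2
    · exact hpl h.2.2.2

/-- the contribution of one cell and one number `n` -/
theorem kf_cell (S : Sys) {k' j' n : ℕ} (hk : S.K ≤ k') (hj : j' ∈ S.badc k') (hn0 : n ≠ 0) (A : Finset ℕ) :
    ∑ x ∈ (S.Cand k' j').filter (fun x => x.1 ∣ n ∧ QK A (k', j') n x ∧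
      A ⊆ x.2.primeFactors ∪ (n / x.1).primeFactors), tw S A x.2 (n / x.1) ≤
      ((n.divisors.card : ℝ) ^ 2 * 2 ^ A.card * (2 * (2 : ℝ) ^ (S.s * ((k' : ℝ) + 1))) * (sig A n : ℝ) ^ S.hh) *
        (2 : ℝ) ^ (-(S.u (S.cls k' j') + S.c) * k') := by
  have hhh1 := S.hh_ge
  have hhh2 := S.hh_le
  have hdel := S.del_pos
  have hs := S.s_pos
  have htau := S.tau_pos
  have hd := S.d_pos
  have hj1 := S.mem_badc.mp hj
  set u := S.u (S.cls k' j') with hu
  set Xr : ℝ := (2 : ℝ) ^ (k' : ℝ) with hXr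
  have hXr0 : 0 < Xr := by positivity
  set E1 : ℝ := (2 : ℝ) ^ (-(u + S.c) * k' + S.s * (k' + 1)) with hE1
  have hE10 : 0 < E1 := by positivity
  set E2 : ℝ := (2 : ℝ) ^ (-(u + S.c + S.del) * k') with hE2
  set H : ℝ := (2 : ℝ) ^ ec S.d k' with hH
  have hH0 : 0 < H := by positivity
  set T := (S.Cand k' j').filter (fun x => x.1 ∣ n ∧ QK A (k', j') n x ∧
      A ⊆ x.2.primeFactors ∪ (n / x.1).primeFactors) with hT
  -- step 1: the weight
  have hw : ∀ x ∈ T, tw S A x.2 (n / x.1) ≤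
      ((mA A x.2 * gg A x.2 (n / x.1) : ℕ) / (x.2 : ℝ)) ^ S.hh * (sig A n : ℝ) ^ S.hh := by
    intro x hx
    rw [hT, Finset.mem_filter] at hx
    obtain ⟨hx, hxn, hQ, hAx⟩ := hx
    obtain ⟨h1, h2, h3, h4, h5, h6, h7, -, -⟩ := S.cand_facts hk hj hx
    have hm0 : (0 : ℝ) < x.2 := by
      have : 0 < x.2 := by omega
      exact_mod_cast this
    have hl : n / x.1 ∣ n := Nat.div_dvd_of_dvd hxn
    have hl0 : n / x.1 ≠ 0 := (Nat.div_pos (Nat.le_of_dvd (Nat.pos_of_ne_zero hn0) hxn) h1.pos).ne'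
    unfold tw
    rw [← Real.mul_rpow (by positivity) (by positivity)]
    refine Real.rpow_le_rpow (by positivity) ?_ (by linarith)
    rw [sig_union A x.2.primeFactors hl0]
    have hmono : (sig A (n / x.1) : ℝ) ≤ sig A n := by exact_mod_cast sig_mono A hn0 hl
    have e : (∏ p ∈ x.2.primeFactors.filter (fun p => p ∉ A ∧ p.Prime ∧ p ∣ n / x.1), p) =
        gg A x.2 (n / x.1) := rfl
    rw [e]
    push_cast
    calc (mA A x.2 : ℝ) / x.2 * ((sig A (n / x.1) : ℝ) * gg A x.2 (n / x.1)) =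
        (mA A x.2 : ℝ) * gg A x.2 (n / x.1) / x.2 * (sig A (n / x.1) : ℝ) := by ring
      _ ≤ _ := mul_le_mul_of_nonneg_left hmono (by positivity)
  have hsum1 : ∑ x ∈ T, tw S A x.2 (n / x.1) ≤
      (∑ x ∈ T, ((mA A x.2 * gg A x.2 (n / x.1) : ℕ) / (x.2 : ℝ)) ^ S.hh) * (sig A n : ℝ) ^ S.hh := by
    rw [Finset.sum_mul]
    exact Finset.sum_le_sum hw
  -- step 2: fibres
  have hb := sum_fib T (n.divisors ×ˢ (PA A ×ˢ n.divisors)) (fun x => (x.1, mA A x.2, gg A x.2 (n / x.1)))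
    (by
      intro x hx
      rw [hT, Finset.mem_filter] at hx
      obtain ⟨hx, hxn, hQ, hAx⟩ := hx
      rw [Finset.mem_product, Finset.mem_product]
      refine ⟨Nat.mem_divisors.mpr ⟨hxn, hn0⟩, mA_mem A x.2, ?_⟩
      exact Nat.mem_divisors.mpr ⟨(gg_dvd A x.2).trans (Nat.div_dvd_of_dvd hxn), hn0⟩)
    (fun x => ((mA A x.2 * gg A x.2 (n / x.1) : ℕ) / (x.2 : ℝ)) ^ S.hh)
    (fun z => if (z.1 : ℝ) ^ (S.hh - 1) ≤ E2 ∧ 0 < z.1 ∧ 0 < z.2.1 ∧ 0 < z.2.2 then
      H / (z.1 * (z.2.1 * z.2.2) : ℕ) + 1 else 0)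
    (fun z => min E1 (((z.1 * (z.2.1 * z.2.2) : ℕ) / Xr) ^ S.hh))
    (fun z _ => le_min hE10.le (by positivity))
    (by
      intro x hx
      rw [hT, Finset.mem_filter] at hx
      obtain ⟨hx, hxn, ⟨p, hp, hpm, hpA, hpl⟩, hAx⟩ := hx
      obtain ⟨h1, h2, h3, h4, h5, h6, h7, -, -⟩ := S.cand_facts hk hj hx
      obtain ⟨r, hr, hr2⟩ := mA_gg A h2 (n / x.1)
      have hm0 : (0 : ℝ) < x.2 := by
        have : 0 < x.2 := by omega
        exact_mod_cast this
      have hw0 : (0 : ℝ) < (mA A x.2 * gg A x.2 (n / x.1) : ℕ) := by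
        exact_mod_cast Nat.mul_pos (mA_pos _ _) (gg_pos _ _ _)
      have hq0 : (0 : ℝ) < x.1 := by exact_mod_cast h1.pos
      refine le_min ?_ ?_
      · have hpr := hr2 p hp hpm hpA hpl
        have hp0 : (0 : ℝ) < p := by exact_mod_cast hp.pos
        have hr0 : 0 < r := by
          rcases Nat.eq_zero_or_pos r with h0 | h0
          · rw [h0, Nat.mul_zero] at hr; omega
          · exact h0
        have h8 : (p : ℝ) ≤ r := by exact_mod_cast Nat.le_of_dvd hr0 hpr
        have h9 : ((mA A x.2 * gg A x.2 (n / x.1) : ℕ) : ℝ) * r = x.2 := by exact_mod_cast hr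
        have h10 : ((mA A x.2 * gg A x.2 (n / x.1) : ℕ) / (x.2 : ℝ)) ≤ (p : ℝ)⁻¹ := by
          rw [div_le_iff₀ hm0, ← h9]
          rw [inv_mul_eq_div, le_div_iff₀ hp0]
          exact mul_le_mul_of_nonneg_left h8 hw0.le
        calc ((mA A x.2 * gg A x.2 (n / x.1) : ℕ) / (x.2 : ℝ)) ^ S.hh ≤ ((p : ℝ)⁻¹) ^ S.hh :=
              Real.rpow_le_rpow (by positivity) h10 (by linarith)
          _ = (p : ℝ) ^ (-S.hh) := by rw [Real.inv_rpow hp0.le, Real.rpow_neg hp0.le]
          _ ≤ E1 := cand_p S hk hj hx hp hpm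
      · refine Real.rpow_le_rpow (by positivity) ?_ (by linarith)
        have h8 : Xr ≤ x.1 * x.2 := by
          rw [hXr, Real.rpow_natCast]
          exact_mod_cast h6
        rw [div_le_div_iff₀ hm0 hXr0]
        push_cast
        have h9 : (0 : ℝ) ≤ (mA A x.2 : ℝ) * gg A x.2 (n / x.1) := by positivity
        calc (mA A x.2 : ℝ) * gg A x.2 (n / x.1) * Xr ≤ (mA A x.2 : ℝ) * gg A x.2 (n / x.1) * (x.1 * x.2) :=
              mul_le_mul_of_nonneg_left h8 h9
          _ = _ := by ring)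
    (by
      rintro ⟨q, μ, g⟩ hz
      dsimp only
      split_ifs with hc
      · obtain ⟨hc1, hc2, hc3, hc4⟩ := hc
        have h12 : ((T.filter (fun x => (x.1, mA A x.2, gg A x.2 (n / x.1)) = (q, μ, g))).card) ≤
            ((Ico (2 ^ k' + j' * 2 ^ ec S.d k') (2 ^ k' + j' * 2 ^ ec S.d k' + 2 ^ ec S.d k')).filter
              (fun t => q * (μ * g) ∣ t)).card := by
          refine card_le_card_of_injOn (fun x => x.1 * x.2) ?_ ?_
          · intro x hx
            rw [mem_coe, mem_filter, hT, mem_filter, Prod.mk.injEq, Prod.mk.injEq] at hx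
            obtain ⟨⟨hx, -, -, -⟩, e1, e2, e3⟩ := hx
            obtain ⟨h1, h2, h3, h4, h5, -⟩ := S.cand_facts hk hj hx
            obtain ⟨r, hr, -⟩ := mA_gg A h2 (n / x.1)
            rw [mem_coe, mem_filter, ← Pool.Agent.Helper88.KS.cell_eq]
            dsimp only
            refine ⟨h5, ?_⟩
            rw [← e1, ← e2, ← e3]
            exact Nat.mul_dvd_mul_left _ (Dvd.intro _ hr)
          · intro x hx y hy hxy
            rw [mem_coe, mem_filter, hT, mem_filter] at hx hy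
            exact S.inj k' hk j' hj1.1 hj1.2 x hx.1.1 y hy.1.1 hxy
        refine le_trans (by exact_mod_cast h12) ((card_mult _ _ _ (Nat.mul_pos hc2 (Nat.mul_pos hc3 hc4))).trans ?_)
        rw [hH]
        push_cast
        exact le_rfl
      · rw [show (T.filter (fun x => (x.1, mA A x.2, gg A x.2 (n / x.1)) = (q, μ, g))) = ∅ by
          rw [filter_eq_empty_iff]
          intro x hx e
          rw [Prod.mk.injEq, Prod.mk.injEq] at e
          obtain ⟨e1, e2, e3⟩ := e
          rw [hT, mem_filter] at hx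
          refine hc ⟨?_, ?_, ?_, ?_⟩
          · rw [← e1]; exact cand_q S hk hj hx.1
          · rw [← e1]; exact (S.cand_facts hk hj hx.1).1.pos
          · rw [← e2]; exact mA_pos _ _
          · rw [← e3]; exact gg_pos _ _ _]
        simp)
  have hterm : ∀ z ∈ n.divisors ×ˢ (PA A ×ˢ n.divisors),
      (if (z.1 : ℝ) ^ (S.hh - 1) ≤ E2 ∧ 0 < z.1 ∧ 0 < z.2.1 ∧ 0 < z.2.2 then
      H / (z.1 * (z.2.1 * z.2.2) : ℕ) + 1 else 0) * min E1 (((z.1 * (z.2.1 * z.2.2) : ℕ) / Xr) ^ S.hh) ≤ 2 * E1 := by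
    rintro ⟨q, μ, g⟩ hz
    dsimp only
    split_ifs with hc
    · obtain ⟨hc1, hc2, hc3, hc4⟩ := hc
      set w : ℝ := ((q * (μ * g) : ℕ) : ℝ) with hwdef
      have hw0 : 0 < w := by
        have := Nat.mul_pos hc2 (Nat.mul_pos hc3 hc4)
        rw [hwdef]; exact_mod_cast this
      have hqw : (q : ℝ) ≤ w := by
        rw [hwdef]
        exact_mod_cast Nat.le_mul_of_pos_right q (Nat.mul_pos hc3 hc4)
      have hq0 : (0 : ℝ) < q := by exact_mod_cast hc2
      have h6 : H / w * (w / Xr) ^ S.hh ≤ E1 := by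
        have h7 : H / w * (w / Xr) ^ S.hh = H * Xr ^ (-S.hh) * w ^ (S.hh - 1) := by
          rw [Real.div_rpow hw0.le hXr0.le, Real.rpow_sub hw0, Real.rpow_one, Real.rpow_neg hXr0.le]
          field_simp
        rw [h7]
        have h8 : w ^ (S.hh - 1) ≤ E2 :=
          (Real.rpow_le_rpow_of_nonpos hq0 hqw (by linarith)).trans hc1
        have h9 : H ≤ (2 : ℝ) ^ ((1/2 - S.d) * (k' : ℝ)) := by
          have := S.d_le'
          refine Pool.Agent.Helper88.KS.ec_real_le S.d ?_ k'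
          norm_num at this
          linarith
        calc H * Xr ^ (-S.hh) * w ^ (S.hh - 1) ≤ (2 : ℝ) ^ ((1/2 - S.d) * (k' : ℝ)) * Xr ^ (-S.hh) * E2 :=
              mul_le_mul (mul_le_mul_of_nonneg_right h9 (by positivity)) h8 (by positivity) (by positivity)
          _ = (2 : ℝ) ^ ((1/2 - S.d) * (k' : ℝ) + (k' : ℝ) * (-S.hh) + -(u + S.c + S.del) * k') := by
              rw [hXr, hE2, ← Real.rpow_mul (by norm_num), ← Real.rpow_add (by norm_num),
                ← Real.rpow_add (by norm_num)]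
          _ ≤ E1 := by
              rw [hE1]
              refine Real.rpow_le_rpow_of_exponent_le (by norm_num) ?_
              have hk0 : (0 : ℝ) ≤ k' := Nat.cast_nonneg _
              have hds : S.s ≤ S.d := by rw [S.s_eq]; linarith
              rw [S.hh_eq]
              have : (1/2 - S.d) * (k' : ℝ) + (k' : ℝ) * (-(1/2 - S.s - S.del + S.tau)) + -(u + S.c + S.del) * k' =
                  -(u + S.c) * k' + (S.s - S.d - S.tau) * k' := by ring
              rw [this]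
              have h10 : (S.s - S.d - S.tau) * (k' : ℝ) ≤ 0 := mul_nonpos_of_nonpos_of_nonneg (by linarith) hk0
              have h11 : 0 ≤ S.s * ((k' : ℝ) + 1) := by positivity
              linarith
      have h11 : H / w * min E1 ((w / Xr) ^ S.hh) ≤ H / w * (w / Xr) ^ S.hh :=
        mul_le_mul_of_nonneg_left (min_le_right _ _) (by positivity)
      have h12 : min E1 ((w / Xr) ^ S.hh) ≤ E1 := min_le_left _ _
      rw [add_mul, one_mul]
      linarith
    · rw [zero_mul]; positivity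
  have hcount : (∑ z ∈ n.divisors ×ˢ (PA A ×ˢ n.divisors),
      (if (z.1 : ℝ) ^ (S.hh - 1) ≤ E2 ∧ 0 < z.1 ∧ 0 < z.2.1 ∧ 0 < z.2.2 then
      H / (z.1 * (z.2.1 * z.2.2) : ℕ) + 1 else 0) * min E1 (((z.1 * (z.2.1 * z.2.2) : ℕ) / Xr) ^ S.hh)) ≤
      ((n.divisors.card : ℝ) ^ 2 * 2 ^ A.card) * (2 * E1) := by
    calc _ ≤ ∑ _z ∈ n.divisors ×ˢ (PA A ×ˢ n.divisors), 2 * E1 := Finset.sum_le_sum hterm
      _ = ((n.divisors.card : ℝ) * ((PA A).card * n.divisors.card)) * (2 * E1) := by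
          rw [Finset.sum_const, nsmul_eq_mul, Finset.card_product, Finset.card_product]; push_cast; ring
      _ ≤ ((n.divisors.card : ℝ) * (2 ^ A.card * n.divisors.card)) * (2 * E1) := by
          refine mul_le_mul_of_nonneg_right ?_ (by positivity)
          refine mul_le_mul_of_nonneg_left ?_ (by positivity)
          refine mul_le_mul_of_nonneg_right ?_ (by positivity)
          exact_mod_cast card_PA A
      _ = _ := by ring
  calc ∑ x ∈ T, tw S A x.2 (n / x.1) ≤
        (((n.divisors.card : ℝ) ^ 2 * 2 ^ A.card) * (2 * E1)) * (sig A n : ℝ) ^ S.hh :=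
        hsum1.trans (mul_le_mul_of_nonneg_right (hb.trans hcount) (by positivity))
    _ = _ := by
        rw [hE1, Real.rpow_add (by norm_num)]
        ring

end Pool.Agent.Helper35.KL
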