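import Pool.Agent.Helper35.KL.JF
import Pool.Agent.Helper88.KS.Load1
import Pool.Agent.Helper18.KL.Red
import Pool.Agent.Helper18.KL.LL
import Pool.Agent.Helper18.KL.Load2

/-! Project KS: the load theorems `Load1`, `Load2`. -/

set_option autoImplicit false

namespace Pool.Agent.Helper35.KL

theorem load1 : Pool.Agent.Helper16.KS.Load1 :=
  Pool.Agent.Helper88.KS.load1_of Pool.Agent.Helper18.KL.red kF jF

theorem load2 : Pool.Agent.Helper16.KS.Load2 :=
  Pool.Agent.Helper18.KL.load2_of Pool.Agent.Helper18.KL.red jF Pool.Agent.Helper18.KL.ll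

end Pool.Agent.Helper35.KL
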